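import Pool.Agent.Lib.MP_084b88_gt.LG.Spec

/-!
# MP_084b88_gt, project LG, module ACV
-/

set_option autoImplicit false

open MeasureTheory Set Real Filter Topology
open scoped Pointwise InnerProductSpace

namespace Pool.Agent.Lib.MP_084b88_gt.LG

open Pool.Agent.Lib.MP_084b88_gt.CW
open Pool.Agent.Lib.MP_084b88_gt.SY

namespace ACVM

/-- denominator -/
noncomputable def DD (a b s : ℝ) : ℝ := a * cos s ^ 2 + b * sin s ^ 2
/-- numerator -/
noncomputable def NN (a b s : ℝ) : ℝ := (b - a) * (sin s * cos s)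

theorem DD_pos {a b : ℝ} (ha : 0 < a) (hb : 0 < b) (s : ℝ) : 0 < DD a b s := by
  unfold DD
  have h := sin_sq_add_cos_sq s
  have hm : 0 < min a b := lt_min ha hb
  have h1 : min a b * cos s ^ 2 ≤ a * cos s ^ 2 :=
    mul_le_mul_of_nonneg_right (min_le_left _ _) (sq_nonneg _)
  have h2 : min a b * sin s ^ 2 ≤ b * sin s ^ 2 :=
    mul_le_mul_of_nonneg_right (min_le_right _ _) (sq_nonneg _)
  have h3 : min a b * cos s ^ 2 + min a b * sin s ^ 2 = min a b := by
    rw [← mul_add, add_comm (cos s ^ 2), h, mul_one]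
  linarith

theorem sq_sum {A B : ℝ} (hA : 0 < A) (hB : 0 < B) (s : ℝ) :
    DD (√A) (√B) s ^ 2 + NN (√A) (√B) s ^ 2 = nn A B s := by
  unfold DD NN nn
  have hA' : √A ^ 2 = A := sq_sqrt hA.le
  have hB' : √B ^ 2 = B := sq_sqrt hB.le
  have h := sin_sq_add_cos_sq s
  have e : (√A * cos s ^ 2 + √B * sin s ^ 2) ^ 2 + ((√B - √A) * (sin s * cos s)) ^ 2 =
      (√A ^ 2 * cos s ^ 2 + √B ^ 2 * sin s ^ 2) * (sin s ^ 2 + cos s ^ 2) := by ring
  rw [e, h, hA', hB', mul_one]

theorem nn_pos {A B : ℝ} (hA : 0 < A) (hB : 0 < B) (s : ℝ) : 0 < nn A B s := by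
  rw [← sq_sum hA hB s]
  have := DD_pos (sqrt_pos.2 hA) (sqrt_pos.2 hB) s
  positivity

theorem thf_eq (A B s : ℝ) : thf A B s = s + arctan (NN (√A) (√B) s / DD (√A) (√B) s) := rfl

theorem sqrt_aux {A B : ℝ} (hA : 0 < A) (hB : 0 < B) (s : ℝ) :
    √(1 + (NN (√A) (√B) s / DD (√A) (√B) s) ^ 2) = √(nn A B s) / DD (√A) (√B) s := by
  have hD := DD_pos (sqrt_pos.2 hA) (sqrt_pos.2 hB) s
  have e : 1 + (NN (√A) (√B) s / DD (√A) (√B) s) ^ 2 = nn A B s / DD (√A) (√B) s ^ 2 := by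
    rw [← sq_sum hA hB s]
    field_simp
  rw [e, sqrt_div' _ (by positivity), sqrt_sq hD.le]

theorem cos_ar {A B : ℝ} (hA : 0 < A) (hB : 0 < B) (s : ℝ) :
    cos (arctan (NN (√A) (√B) s / DD (√A) (√B) s)) = DD (√A) (√B) s / √(nn A B s) := by
  rw [cos_arctan, sqrt_aux hA hB]
  rw [one_div, inv_div]

theorem sin_ar {A B : ℝ} (hA : 0 < A) (hB : 0 < B) (s : ℝ) :
    sin (arctan (NN (√A) (√B) s / DD (√A) (√B) s)) = NN (√A) (√B) s / √(nn A B s) := by
  rw [sin_arctan, sqrt_aux hA hB]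
  have hD := DD_pos (sqrt_pos.2 hA) (sqrt_pos.2 hB) s
  have hn := sqrt_pos.2 (nn_pos hA hB s)
  field_simp

theorem cos_thf {A B : ℝ} (hA : 0 < A) (hB : 0 < B) (s : ℝ) :
    cos (thf A B s) = √A * cos s / √(nn A B s) := by
  rw [thf_eq, cos_add, cos_ar hA hB, sin_ar hA hB]
  have h := sin_sq_add_cos_sq s
  unfold DD NN
  rw [← mul_div_assoc, ← mul_div_assoc, ← sub_div]
  congr 1
  linear_combination (√A * cos s) * h

theorem sin_thf {A B : ℝ} (hA : 0 < A) (hB : 0 < B) (s : ℝ) :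
    sin (thf A B s) = √B * sin s / √(nn A B s) := by
  rw [thf_eq, sin_add, cos_ar hA hB, sin_ar hA hB]
  have h := sin_sq_add_cos_sq s
  unfold DD NN
  rw [← mul_div_assoc, ← mul_div_assoc, ← add_div]
  congr 1
  linear_combination (√B * sin s) * h

theorem der_thf {A B : ℝ} (hA : 0 < A) (hB : 0 < B) (s : ℝ) :
    HasDerivAt (thf A B) (√A * √B / nn A B s) s := by
  have hD := DD_pos (sqrt_pos.2 hA) (sqrt_pos.2 hB) s
  have hn := nn_pos hA hB s
  have h := sin_sq_add_cos_sq s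
  have hd : HasDerivAt (DD (√A) (√B)) (√A * (2 * cos s * (-sin s)) + √B * (2 * sin s * cos s)) s := by
    unfold DD
    have h1 := ((hasDerivAt_cos s).pow 2).const_mul (√A)
    have h2 := ((hasDerivAt_sin s).pow 2).const_mul (√B)
    refine (h1.add h2).congr_deriv ?_
    simp
  have hN : HasDerivAt (NN (√A) (√B)) ((√B - √A) * (cos s * cos s + sin s * (-sin s))) s := by
    unfold NN
    exact ((hasDerivAt_sin s).mul (hasDerivAt_cos s)).const_mul (√B - √A)
  have hq := hN.div hd hD.ne'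
  have ha := hq.arctan
  have h3 := (hasDerivAt_id s).add ha
  refine h3.congr_deriv ?_
  have e : 1 + (NN (√A) (√B) s / DD (√A) (√B) s) ^ 2 = nn A B s / DD (√A) (√B) s ^ 2 := by
    rw [← sq_sum hA hB s]
    field_simp
  simp only [Pi.div_apply]
  rw [e]
  have e2 : (√B - √A) * (cos s * cos s + sin s * (-sin s)) * DD (√A) (√B) s -
      NN (√A) (√B) s * (√A * (2 * cos s * (-sin s)) + √B * (2 * sin s * cos s)) =
      √A * √B - nn A B s := by
    have hA' : √A ^ 2 = A := sq_sqrt hA.le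
    have hB' : √B ^ 2 = B := sq_sqrt hB.le
    unfold DD NN nn
    linear_combination ((√B - √A) * (√A * cos s ^ 2 - √B * sin s ^ 2) + √A * √B) * h -
      cos s ^ 2 * hA' - sin s ^ 2 * hB'
  rw [e2]
  field_simp
  ring

end ACVM

open ACVM in
theorem specACV : SpecACV := by
  intro A B hA hB
  refine ⟨fun s => ⟨nn_pos hA hB s, cos_thf hA hB s, sin_thf hA hB s⟩, ?_⟩
  intro F hF hper t0
  have hder : ∀ s ∈ uIcc (0 : ℝ) (2 * π),
      HasDerivAt (fun s => t0 + thf A B s) (√A * √B / nn A B s) s := fun s _ =>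
    (der_thf hA hB s).const_add t0
  have hc : ContinuousOn (fun s => √A * √B / nn A B s) (uIcc (0 : ℝ) (2 * π)) := by
    apply Continuous.continuousOn
    apply Continuous.div continuous_const
    · unfold nn
      fun_prop
    · intro s
      exact (nn_pos hA hB s).ne'
  have h := intervalIntegral.integral_comp_mul_deriv (g := F) hder hc hF
  simp only [Function.comp_apply] at h
  rw [h]
  have h0 : thf A B 0 = 0 := by
    unfold thf
    simp
  have h2 : thf A B (2 * π) = 2 * π := by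
    unfold thf
    simp
  rw [h0, h2, add_zero]
  have hP : Function.Periodic F (2 * π) := hper
  have h3 := hP.intervalIntegral_add_eq t0 0
  rw [h3, zero_add]

end Pool.Agent.Lib.MP_084b88_gt.LG
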