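import Pool.Agent.Lib.MP_084b88_gt.LG.Spec

/-!
# MP_084b88_gt, project LG, module AFQ
-/

set_option autoImplicit false

open MeasureTheory Set Real Filter Topology
open scoped Pointwise InnerProductSpace

namespace Pool.Agent.Lib.MP_084b88_gt.LG

open Pool.Agent.Lib.MP_084b88_gt.CW
open Pool.Agent.Lib.MP_084b88_gt.SY

namespace AFQM

/-- `lm` as a continuous linear map. -/
noncomputable def LM (t0 a b : ℝ) : ℝ × ℝ →L[ℝ] ℝ × ℝ :=
  LinearMap.toContinuousLinearMap (Matrix.toLin (Module.Basis.finTwoProd ℝ) (Module.Basis.finTwoProd ℝ)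
    !![a * cos t0, -(b * sin t0); a * sin t0, b * cos t0])

theorem LM_apply (t0 a b : ℝ) (q : ℝ × ℝ) : LM t0 a b q = lm t0 a b q := by
  unfold LM lm
  simp only [LinearMap.coe_toContinuousLinearMap', Matrix.toLin_finTwoProd_apply, Prod.mk.injEq]
  constructor <;> ring

theorem LM_coe (t0 a b : ℝ) : (LM t0 a b : ℝ × ℝ → ℝ × ℝ) = lm t0 a b :=
  funext (LM_apply t0 a b)

theorem LM_det (t0 a b : ℝ) : (LM t0 a b).det = a * b := by
  unfold LM
  simp only [LinearMap.det_toContinuousLinearMap, LinearMap.det_toLin, Matrix.det_fin_two_of]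
  have h := sin_sq_add_cos_sq t0
  linear_combination (a * b) * h

theorem lm_inj {t0 a b : ℝ} (ha : 0 < a) (hb : 0 < b) : Function.Injective (lm t0 a b) := by
  intro q q' h
  unfold lm at h
  simp only [Prod.mk.injEq] at h
  obtain ⟨h1, h2⟩ := h
  have hs := sin_sq_add_cos_sq t0
  have e1 : a * q.1 = a * q'.1 := by
    linear_combination cos t0 * h1 + sin t0 * h2 - (a * q.1 - a * q'.1) * hs
  have e2 : b * q.2 = b * q'.2 := by
    linear_combination -sin t0 * h1 + cos t0 * h2 - (b * q.2 - b * q'.2) * hs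
  exact Prod.ext (mul_left_cancel₀ ha.ne' e1) (mul_left_cancel₀ hb.ne' e2)

theorem lm_cont (t0 a b : ℝ) : Continuous (lm t0 a b) := by
  rw [← LM_coe]
  exact (LM t0 a b).continuous

theorem cc_lm {P : Set (ℝ × ℝ)} (hP : CC P) (t0 a b : ℝ) : CC (lm t0 a b '' P) := by
  refine ⟨?_, hP.2.1.image (lm_cont t0 a b), hP.2.2.image _⟩
  rw [← LM_coe]
  exact hP.1.linear_image (LM t0 a b : ℝ × ℝ →ₗ[ℝ] ℝ × ℝ)

theorem int_lm {P : Set (ℝ × ℝ)} (hP : MeasurableSet P) {t0 a b : ℝ} (ha : 0 < a) (hb : 0 < b)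
    (f : ℝ × ℝ → ℝ) :
    ∫ p in lm t0 a b '' P, f p = a * b * ∫ q in P, f (lm t0 a b q) := by
  have h := integral_image_eq_integral_abs_det_fderiv_smul (volume : Measure (ℝ × ℝ)) (s := P)
    (f := lm t0 a b) (f' := fun _ => LM t0 a b) hP
    (fun x _ => by
      rw [← LM_coe]
      exact (LM t0 a b).hasFDerivWithinAt) (lm_inj ha hb).injOn f
  rw [h, LM_det, abs_of_pos (mul_pos ha hb), integral_smul, smul_eq_mul]

theorem area_eq (P : Set (ℝ × ℝ)) : area P = ∫ _p in P, (1 : ℝ) := by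
  unfold area
  simp [Measure.real]

theorem dotu_lm {t0 a b s θ e : ℝ} (h1 : a * cos θ = e * cos s) (h2 : b * sin θ = e * sin s)
    (q : ℝ × ℝ) : dotu (t0 + θ) (lm t0 a b q) = e * dotu s q := by
  unfold dotu lm
  simp only
  rw [cos_add, sin_add]
  have hs := sin_sq_add_cos_sq t0
  linear_combination (a * q.1 * cos θ + b * q.2 * sin θ) * hs + q.1 * h1 + q.2 * h2

theorem sup2_lm (P : Set (ℝ × ℝ)) {t0 a b s θ e : ℝ} (he : 0 < e) (h1 : a * cos θ = e * cos s)
    (h2 : b * sin θ = e * sin s) : sup2 (lm t0 a b '' P) (t0 + θ) = e * sup2 P s := by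
  unfold sup2
  have e1 : dotu (t0 + θ) '' (lm t0 a b '' P) = e • (dotu s '' P) := by
    rw [image_image]
    ext y
    simp only [mem_image, mem_smul_set, smul_eq_mul, exists_exists_and_eq_and]
    constructor
    · rintro ⟨q, hq, rfl⟩
      exact ⟨q, hq, (dotu_lm h1 h2 q).symm⟩
    · rintro ⟨q, hq, rfl⟩
      exact ⟨q, hq, dotu_lm h1 h2 q⟩
  rw [e1, Real.sSup_smul_of_nonneg he.le, smul_eq_mul]

end AFQM

open AFQM in
theorem specAFQ : SpecAFQ := by
  intro P t0 a b hP ha hb
  have hI := fun f => int_lm (P := P) hP.2.1.measurableSet (t0 := t0) ha hb f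
  refine ⟨cc_lm hP t0 a b, ?_, hI, ?_⟩
  · rw [area_eq, area_eq, hI]
  · intro s θ e he h1 h2
    have hs := sup2_lm P (t0 := t0) he h1 h2
    have h1' : a * cos (θ + π) = e * cos (s + π) := by
      rw [cos_add_pi, cos_add_pi]
      linarith
    have h2' : b * sin (θ + π) = e * sin (s + π) := by
      rw [sin_add_pi, sin_add_pi]
      linarith
    have hs' := sup2_lm P (t0 := t0) he h1' h2'
    rw [← add_assoc] at hs'
    have hw : wid (lm t0 a b '' P) (t0 + θ) = e * wid P s := by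
      unfold wid
      rw [hs, hs']
      ring
    have hm : mid (lm t0 a b '' P) (t0 + θ) = e * mid P s := by
      unfold mid
      rw [hs, hs']
      ring
    refine ⟨hs, hw, hm, ?_⟩
    intro hpos
    have key : ∀ q : ℝ × ℝ, (dotu (t0 + θ) (lm t0 a b q) - mid (lm t0 a b '' P) (t0 + θ)) /
        (wid (lm t0 a b '' P) (t0 + θ) / 2) = (dotu s q - mid P s) / (wid P s / 2) := by
      intro q
      rw [dotu_lm h1 h2, hm, hw]
      field_simp
    constructor
    · unfold qf
      rw [hI]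
      simp only [key]
    · unfold mf
      rw [hI]
      simp only [key]

end Pool.Agent.Lib.MP_084b88_gt.LG
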