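import Pool.Agent.Lib.MP_084b88_gt.LG.Spec
import Pool.Agent.Lib.MP_084b88_gt.PC.Spec

/-!
# MP_084b88_gt, project LG: module BND (the Legendre band)
-/

set_option autoImplicit false

open MeasureTheory Set Real Filter Topology
open scoped Pointwise InnerProductSpace

namespace Pool.Agent.Lib.MP_084b88_gt.LG

open Pool.Agent.Lib.MP_084b88_gt.CW
open Pool.Agent.Lib.MP_084b88_gt.PC (EPF)

namespace BNDM

theorem dotu_neg (s : ℝ) (p : ℝ × ℝ) : dotu s (-p) = - dotu s p := by
  simp only [dotu, Prod.fst_neg, Prod.snd_neg]; ring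

theorem dotu_pi (s : ℝ) (p : ℝ × ℝ) : dotu (s + π) p = dotu s (-p) := by
  simp only [dotu, Prod.fst_neg, Prod.snd_neg, cos_add_pi, sin_add_pi]; ring

theorem sup2_sym {P : Set (ℝ × ℝ)} (hs : ∀ p ∈ P, -p ∈ P) (s : ℝ) :
    sup2 P (s + π) = sup2 P s := by
  unfold sup2
  congr 1
  ext y
  constructor
  · rintro ⟨p, hp, rfl⟩
    exact ⟨-p, hs p hp, (dotu_pi s p).symm⟩
  · rintro ⟨p, hp, rfl⟩
    refine ⟨-p, hs p hp, ?_⟩
    rw [dotu_pi, neg_neg]

theorem mid_sym {P : Set (ℝ × ℝ)} (hs : ∀ p ∈ P, -p ∈ P) (s : ℝ) : mid P s = 0 := by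
  unfold mid
  rw [sup2_sym hs, sub_self, zero_div]

/-- Even functions. -/
theorem int_even (g : ℝ → ℝ) (hg : ∀ x, g (-x) = g x) (hi : IntervalIntegrable g volume 0 1) :
    ∫ x in (-1 : ℝ)..1, g x = 2 * ∫ x in (0 : ℝ)..1, g x := by
  have h1 : IntervalIntegrable g volume (-1) 0 := by
    have h2 := (IntervalIntegrable.iff_comp_neg).1 hi
    simp only [hg, neg_zero] at h2
    exact h2.symm
  rw [← intervalIntegral.integral_add_adjacent_intervals h1 hi]
  have h3 : ∫ x in (-1 : ℝ)..0, g x = ∫ x in (0 : ℝ)..1, g x := by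
    have h4 := intervalIntegral.integral_comp_neg (a := (0 : ℝ)) (b := 1) g
    simp only [hg, neg_zero] at h4
    exact h4.symm
  rw [h3]
  ring

theorem integrable_of_cont {P : Set (ℝ × ℝ)} (hP : CC P) {f : ℝ × ℝ → ℝ} (hf : Continuous f) :
    IntegrableOn f P := hf.continuousOn.integrableOn_compact hP.2.1

/-- Second moments in every direction. -/
theorem mom {P : Set (ℝ × ℝ)} (hP : Iso P) (s : ℝ) : ∫ p in P, dotu s p ^ 2 = area P / 3 := by
  have e : ∀ p : ℝ × ℝ, dotu s p ^ 2 =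
      cos s ^ 2 * p.1 ^ 2 + 2 * (cos s * sin s) * (p.1 * p.2) + sin s ^ 2 * p.2 ^ 2 := by
    intro p; simp only [dotu]; ring
  simp only [e]
  rw [integral_add, integral_add, integral_const_mul, integral_const_mul, integral_const_mul,
    hP.m11, hP.m22, hP.m12]
  · linear_combination (area P / 3) * (sin_sq_add_cos_sq s)
  · exact integrable_of_cont hP.cc (by fun_prop)
  · exact integrable_of_cont hP.cc (by fun_prop)
  · exact integrable_of_cont hP.cc (by fun_prop)
  · exact integrable_of_cont hP.cc (by fun_prop)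

/-- The profile of an isotropic body. -/
theorem profile (hBOD : PC.SpecBOD) (hEPB : PC.SpecEPB) {P : Set (ℝ × ℝ)} (hP : Iso P) (s : ℝ) :
    ∃ c : ℝ → ℝ, EPF c ∧ 0 < (∫ x in (0 : ℝ)..1, c x) ∧
      area P = wid P s * (∫ x in (0 : ℝ)..1, c x) ∧
      xf P s * (∫ x in (0 : ℝ)..1, c x) = 3 * (∫ x in (0 : ℝ)..1, x ^ 2 * c x) ∧
      qf P s = wid P s * (∫ x in (0 : ℝ)..1, √(1 - x ^ 2) * c x) := by
  obtain ⟨hw, T, C, hT, hTb, hTn, -, hF⟩ := hBOD P hP.cc hP.sym hP.apos s
  have hc : EPF (fun τ => T τ + T (-τ)) := by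
    refine ⟨?_, ?_, hTn⟩
    · refine hT.add ⟨convex_Ioo _ _, ?_⟩
      intro x hx y hy a b ha hb hab
      have hx' : -x ∈ Ioo (-1 : ℝ) 1 := ⟨by linarith [hx.2], by linarith [hx.1]⟩
      have hy' : -y ∈ Ioo (-1 : ℝ) 1 := ⟨by linarith [hy.2], by linarith [hy.1]⟩
      have := hT.2 hx' hy' ha hb hab
      simp only [smul_eq_mul] at this ⊢
      have e : -(a * x + b * y) = a * -x + b * -y := by ring
      rw [e]
      exact this
    · intro x
      simp only [neg_neg]
      ring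
  obtain ⟨-, -, -, hint, -⟩ := hEPB _ hc
  have key : ∀ G : ℝ → ℝ, Continuous G → (∀ x, G (-x) = G x) →
      ∫ p in P, G (dotu s p / (wid P s / 2)) =
        wid P s * ∫ x in (0 : ℝ)..1, G x * (T x + T (-x)) := by
    intro G hG hGe
    have h1 := hF (fun q => G q.1) (by fun_prop)
    simp only at h1
    rw [h1]
    have h2 : ∀ τ : ℝ, ∫ _y in (-T (-τ))..(T τ), G τ = G τ * (T τ + T (-τ)) := by
      intro τ
      rw [intervalIntegral.integral_const, smul_eq_mul]
      ring
    simp only [h2]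
    rw [int_even (fun τ => G τ * (T τ + T (-τ)))]
    · ring
    · intro x
      simp only [hGe, neg_neg]
      ring
    · exact hint (fun q => G q.1 * q.2) (by fun_prop)
  have h1 := key (fun _ => 1) continuous_const (fun _ => rfl)
  have h2 := key (fun x => x ^ 2) (by fun_prop) (fun x => by ring)
  have h3 := key (fun x => √(1 - x ^ 2)) (by fun_prop) (fun x => by simp)
  simp only [one_mul, integral_const, MeasurableSet.univ, measureReal_restrict_apply, univ_inter,
    smul_eq_mul, mul_one] at h1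
  change area P = _ at h1
  have hI : 0 < ∫ x in (0 : ℝ)..1, (T x + T (-x)) := by
    by_contra hcon
    have : wid P s * (∫ x in (0 : ℝ)..1, (T x + T (-x))) ≤ 0 :=
      mul_nonpos_of_nonneg_of_nonpos hw.le (not_lt.1 hcon)
    rw [← h1] at this
    linarith [hP.apos]
  refine ⟨_, hc, hI, h1, ?_, ?_⟩
  · have h4 : ∫ p in P, (dotu s p / (wid P s / 2)) ^ 2 = xf P s * (area P / 3) := by
      have e : ∀ p : ℝ × ℝ, (dotu s p / (wid P s / 2)) ^ 2 = xf P s * dotu s p ^ 2 := by
        intro p; unfold xf; rw [div_pow]; ring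
      simp only [e]
      rw [integral_const_mul, mom hP]
    rw [h4, h1] at h2
    have h5 : wid P s * (xf P s * (∫ x in (0 : ℝ)..1, (T x + T (-x)))) =
        wid P s * (3 * ∫ x in (0 : ℝ)..1, x ^ 2 * (T x + T (-x))) := by linarith
    exact mul_left_cancel₀ hw.ne' h5
  · rw [← h3]
    unfold qf
    rw [mid_sym hP.sym]
    simp only [sub_zero]

end BNDM

open BNDM in
/-- **BND**. -/
theorem specBND (hBOD : PC.SpecBOD) (hEPB : PC.SpecEPB) (hMRB : PC.SpecMRB)
    (hBHN : PC.SpecBHN) : SpecBND := by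
  intro P hP s
  obtain ⟨c, hc, hI, hA, hx, hq⟩ := profile hBOD hEPB hP s
  obtain ⟨m1, m2, m3⟩ := hMRB c hc
  have hw := hP.wpos s
  set I := ∫ x in (0 : ℝ)..1, c x with hId
  have hqA : qf P s / area P = (∫ x in (0 : ℝ)..1, √(1 - x ^ 2) * c x) / I := by
    rw [hq, hA, mul_div_mul_left _ _ hw.ne']
  have hM : (∫ x in (0 : ℝ)..1, x ^ 2 * c x) = xf P s / 3 * I := by linarith
  refine ⟨?_, ?_, ?_, ?_⟩
  · rw [hM] at m1
    have : 1 * I ≤ (2 * xf P s) * I := by linarith
    have := le_of_mul_le_mul_right this hI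
    linarith
  · rw [hM] at m2
    have : xf P s * I ≤ 1 * I := by linarith
    exact le_of_mul_le_mul_right this hI
  · unfold Rf Sf
    rw [hqA]
    have h1 : (3 * π / 4 - 4 / 3) - (3 * π / 2 - 4) * (xf P s / 3) ≤
        (∫ x in (0 : ℝ)..1, √(1 - x ^ 2) * c x) / I := by
      rw [le_div_iff₀ hI]
      rw [hM] at m3
      linarith
    linarith
  · intro l hl
    have hkap : 0.8488262 ≤ kap := by
      unfold kap
      have h1 := Real.pi_lt_d6
      have h2 := Real.pi_pos
      rw [le_div_iff₀ (by positivity)]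
      norm_num at h1 ⊢
      linarith
    have gen : ∀ p q : ℝ, (∫ x in (0 : ℝ)..1, √(1 - x ^ 2) * c x) ≤
        p * I - q * (∫ x in (0 : ℝ)..1, x ^ 2 * c x) →
        Rf P s ≤ (1 / 6 - q / 3) * xf P s + (p - kap - 1 / 8) := by
      intro p q h2
      unfold Rf Sf
      rw [hqA]
      have h1 : (∫ x in (0 : ℝ)..1, √(1 - x ^ 2) * c x) / I ≤ p - q * (xf P s / 3) := by
        rw [div_le_iff₀ hI]
        rw [hM] at h2
        linarith
      linarith
    have g1 := gen _ _ (hBHN c hc (10019 / 10000, 5857 / 10000) (Or.inl rfl))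
    have g2 := gen _ _ (hBHN c hc (10083 / 10000, 6185 / 10000) (Or.inr (Or.inl rfl)))
    have g3 := gen _ _ (hBHN c hc (10221 / 10000, 6786 / 10000) (Or.inr (Or.inr (Or.inl rfl))))
    have g4 := gen _ _ (hBHN c hc (10488 / 10000, 7763 / 10000)
      (Or.inr (Or.inr (Or.inr (Or.inl rfl)))))
    have g5 := gen _ _ (hBHN c hc (10966 / 10000, 9306 / 10000)
      (Or.inr (Or.inr (Or.inr (Or.inr rfl)))))
    simp only [bandQ, List.mem_cons, List.not_mem_nil, or_false] at hl
    rcases hl with rfl | rfl | rfl | rfl | rfl <;> push_cast <;> linarith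

end Pool.Agent.Lib.MP_084b88_gt.LG
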