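import Pool.Agent.Lib.MP_084b88_gt.LG.Spec

/-!
# MP_084b88_gt, project LG: module CNT (continuity and periodicity of `qf`)
-/

set_option autoImplicit false

open MeasureTheory Set Real Filter Topology
open scoped Pointwise InnerProductSpace

namespace Pool.Agent.Lib.MP_084b88_gt.LG

open Pool.Agent.Lib.MP_084b88_gt.CW
open Pool.Agent.Lib.MP_084b88_gt.SY

namespace CNTM

theorem dotu_pi (t : ℝ) (p : ℝ × ℝ) : dotu (t + π) p = -dotu t p := by
  unfold dotu
  rw [cos_add_pi, sin_add_pi]
  ring

theorem cont_p (t : ℝ) : Continuous (fun p : ℝ × ℝ => dotu t p) := by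
  unfold dotu
  fun_prop

theorem cont_t (p : ℝ × ℝ) : Continuous (fun t : ℝ => dotu t p) := by
  unfold dotu
  fun_prop

theorem sqrt_le (x : ℝ) : √(1 - x ^ 2) ≤ 1 := by
  rw [Real.sqrt_le_one]
  nlinarith [sq_nonneg x]

end CNTM

open CNTM in
/-- **CNT**. -/
theorem specCNT (hWB2 : SpecWB2) : SpecCNT := by
  intro Q hQ hwid
  obtain ⟨-, -, -, w4, -, -, -, -, -, w10, w11⟩ := hWB2
  obtain ⟨hs, hw⟩ := w10 Q hQ
  have hfin : volume Q ≠ ⊤ := hQ.2.1.measure_lt_top.ne
  have hint : IntegrableOn (fun _ : ℝ × ℝ => (1 : ℝ)) Q volume := integrableOn_const hfin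
  have hmid : Continuous (mid Q) := by
    unfold mid
    fun_prop
  have hcp : ∀ t, Continuous (fun p : ℝ × ℝ => √(1 - ((dotu t p - mid Q t) / (wid Q t / 2)) ^ 2)) := by
    intro t
    have := cont_p t
    fun_prop
  refine ⟨?_, ?_, ?_⟩
  · unfold qf
    refine continuous_of_dominated (bound := fun _ => (1 : ℝ)) (fun t => (hcp t).aestronglyMeasurable) ?_ hint ?_
    · intro t
      filter_upwards with p
      rw [Real.norm_eq_abs, abs_of_nonneg (Real.sqrt_nonneg _)]
      exact sqrt_le _
    · filter_upwards with p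
      have h1 : Continuous (fun t => (dotu t p - mid Q t) / (wid Q t / 2)) := by
        refine Continuous.div ((cont_t p).sub hmid) (hw.div_const 2) fun t => ?_
        have := hwid t
        positivity
      fun_prop
  · intro t
    unfold qf
    have e1 : mid Q (t + π) = -mid Q t := by
      unfold mid
      have h1 : sup2 Q (t + π + π) = sup2 Q t := by
        rw [← w4 Q t]
        congr 1
        ring
      rw [h1]
      ring
    rw [e1, w11 Q t]
    congr 1
    funext p
    rw [dotu_pi]
    congr 2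
    ring
  · intro t
    constructor
    · exact integral_nonneg fun p => Real.sqrt_nonneg _
    · have h1 : IntegrableOn (fun p : ℝ × ℝ => √(1 - ((dotu t p - mid Q t) / (wid Q t / 2)) ^ 2)) Q volume :=
        (hcp t).continuousOn.integrableOn_compact hQ.2.1
      have h2 : ∫ p in Q, √(1 - ((dotu t p - mid Q t) / (wid Q t / 2)) ^ 2) ≤ ∫ _ in Q, (1 : ℝ) :=
        integral_mono h1 hint fun p => sqrt_le _
      rw [setIntegral_const, smul_eq_mul, mul_one] at h2
      exact h2

end Pool.Agent.Lib.MP_084b88_gt.LG
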