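import Pool.Agent.Lib.MP_084b88_gt.LG.Spec
import Pool.Agent.Lib.MP_084b88_gt.SY.SQF

/-!
# MP_084b88_gt, project LG: module CW2 (the weighted inequality with two weights)
-/

set_option autoImplicit false

open MeasureTheory Set Real Filter Topology
open scoped Pointwise InnerProductSpace

namespace Pool.Agent.Lib.MP_084b88_gt.LG

open Pool.Agent.Lib.MP_084b88_gt.CW
open Pool.Agent.Lib.MP_084b88_gt.SY

namespace CW2M

/-- The pointwise inequality for the functions of one variable. -/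
theorem ptw {ε : ℝ} {N : ℕ} {c : ℕ → ℝ}
    (h1 : ∀ y ∈ Icc (0 : ℝ) 1, |(1 - √(1 - y) - y / 2) - ∑ k ∈ Finset.range N, c k * y ^ (k + 2)| ≤ ε)
    (h2 : |(∑ k ∈ Finset.range N, c k * mu (k + 2)) - (7 / 8 - kap)| ≤ ε) (x : ℝ) (hx : |x| ≤ 1) :
    0 ≤ (√(1 - x ^ 2) + (x ^ 2 / 2 + (-1 / 8 - kap))) +
      (∑ k ∈ Finset.range N, c k * (x ^ (2 * (k + 2)) - mu (k + 2))) + 2 * ε := by
  have hy : x ^ 2 ∈ Icc (0 : ℝ) 1 := ⟨sq_nonneg x, (sq_le_one_iff_abs_le_one x).2 hx⟩
  have h3 := (abs_le.1 (h1 _ hy)).2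
  have h4 := (abs_le.1 h2).2
  have e : ∑ k ∈ Finset.range N, c k * (x ^ (2 * (k + 2)) - mu (k + 2)) =
      (∑ k ∈ Finset.range N, c k * (x ^ 2) ^ (k + 2)) -
        ∑ k ∈ Finset.range N, c k * mu (k + 2) := by
    rw [← Finset.sum_sub_distrib]
    refine Finset.sum_congr rfl fun k _ => ?_
    rw [pow_mul]
    ring
  rw [e]
  linarith

/-- The limit argument. -/
theorem weighted {w F : ℝ → ℝ} {I : ℕ → ℝ → ℝ} {a : ℝ} (ha : 0 ≤ a) (hw0 : ∀ t, 0 ≤ w t)
    (hwc : Continuous w)
    (hI : ∀ k, IntervalIntegrable (fun t => w t * I k t) volume 0 (2 * π) ∧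
      ∫ t in (0 : ℝ)..(2 * π), w t * I k t ≤ 0)
    (key : ∀ ε : ℝ, 0 < ε → ∃ (N : ℕ) (c : ℕ → ℝ), (∀ k, 0 ≤ c k) ∧ ∀ t,
      -(∑ k ∈ Finset.range N, c k * I k t) - 2 * ε * a ≤ F t) :
    0 ≤ ∫ t in (0 : ℝ)..(2 * π), w t * F t := by
  by_cases hint : IntervalIntegrable (fun t => w t * F t) volume 0 (2 * π)
  swap
  · rw [intervalIntegral.integral_undef hint]
  have h2π : (0 : ℝ) ≤ 2 * π := by positivity
  obtain ⟨W, hW⟩ : ∃ W : ℝ, W = ∫ t in (0 : ℝ)..(2 * π), w t := ⟨_, rfl⟩
  have hW0 : 0 ≤ W := by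
    rw [hW]
    exact intervalIntegral.integral_nonneg h2π fun t _ => hw0 t
  have hlow : ∀ ε : ℝ, 0 < ε → -(2 * ε * a * W) ≤ ∫ t in (0 : ℝ)..(2 * π), w t * F t := by
    intro ε hε
    obtain ⟨N, c, hc0, hpt⟩ := key ε hε
    have hIk : ∀ k ∈ Finset.range N, IntervalIntegrable (fun t => c k * (w t * I k t)) volume 0 (2 * π) :=
      fun k _ => (hI k).1.const_mul (c k)
    have hIs : IntervalIntegrable (fun t => ∑ k ∈ Finset.range N, c k * (w t * I k t))
        volume 0 (2 * π) := by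
      have h := IntervalIntegrable.sum (Finset.range N) hIk
      refine h.congr fun t _ => ?_
      rw [Finset.sum_apply]
    have hIw : IntervalIntegrable (fun t => 2 * ε * a * w t)
        volume 0 (2 * π) := ((hwc.const_mul (2 * ε * a)).intervalIntegrable _ _)
    have hmono : ∫ t in (0 : ℝ)..(2 * π), (-(∑ k ∈ Finset.range N, c k * (w t * I k t)) -
        2 * ε * a * w t) ≤ ∫ t in (0 : ℝ)..(2 * π), w t * F t := by
      refine intervalIntegral.integral_mono h2π (hIs.neg.sub hIw) hint fun t => ?_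
      have h := mul_le_mul_of_nonneg_left (hpt t) (hw0 t)
      have e : w t * (-(∑ k ∈ Finset.range N, c k * I k t) - 2 * ε * a) =
          -(∑ k ∈ Finset.range N, c k * (w t * I k t)) - 2 * ε * a * w t := by
        have e0 : ∑ k ∈ Finset.range N, c k * (w t * I k t) =
            w t * ∑ k ∈ Finset.range N, c k * I k t := by
          rw [Finset.mul_sum]
          refine Finset.sum_congr rfl fun k _ => ?_
          ring
        rw [e0]
        ring
      rw [e] at h
      exact h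
    have hIn : IntervalIntegrable (fun t => -(∑ k ∈ Finset.range N, c k * (w t * I k t)))
        volume 0 (2 * π) := hIs.neg
    rw [intervalIntegral.integral_sub hIn hIw, intervalIntegral.integral_neg,
      intervalIntegral.integral_finsetSum hIk, intervalIntegral.integral_const_mul, ← hW] at hmono
    have hs : ∑ k ∈ Finset.range N, ∫ t in (0 : ℝ)..(2 * π), c k * (w t * I k t) ≤ 0 := by
      refine Finset.sum_nonpos fun k _ => ?_
      rw [intervalIntegral.integral_const_mul]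
      exact mul_nonpos_of_nonneg_of_nonpos (hc0 k) (hI k).2
    linarith
  by_contra hneg
  rw [not_le] at hneg
  obtain ⟨V, hV⟩ : ∃ V : ℝ, V = ∫ t in (0 : ℝ)..(2 * π), w t * F t := ⟨_, rfl⟩
  rw [← hV] at hneg
  have hK : 0 ≤ 2 * a * W := by positivity
  have h := hlow (-V / (2 * (2 * a * W + 1))) (by
    apply div_pos <;> linarith)
  rw [← hV] at h
  have hD : 0 < 2 * (2 * a * W + 1) := by linarith
  have e : 2 * (-V / (2 * (2 * a * W + 1))) * a * W =
      (-V) * (2 * a * W / (2 * (2 * a * W + 1))) := by ring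
  rw [e] at h
  have h5 : 2 * a * W / (2 * (2 * a * W + 1)) ≤ 1 / 2 := by
    rw [div_le_iff₀ hD]
    linarith
  have h6 : (-V) * (2 * a * W / (2 * (2 * a * W + 1))) ≤ (-V) * (1 / 2) :=
    mul_le_mul_of_nonneg_left h5 (by linarith)
  linarith

theorem dotu_neg (t : ℝ) (p : ℝ × ℝ) : dotu t (-p) = -dotu t p := by
  unfold dotu
  simp only [Prod.fst_neg, Prod.snd_neg]
  ring

/-- The second moment in every direction. -/
theorem moment {P : Set (ℝ × ℝ)} (hP : Iso P) (t : ℝ) :
    ∫ p in P, dotu t p ^ 2 = area P / 3 := by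
  have hc := hP.cc.2.1
  have i1 : IntegrableOn (fun p : ℝ × ℝ => p.1 ^ 2) P volume :=
    (Continuous.continuousOn (by fun_prop)).integrableOn_compact hc
  have i2 : IntegrableOn (fun p : ℝ × ℝ => p.2 ^ 2) P volume :=
    (Continuous.continuousOn (by fun_prop)).integrableOn_compact hc
  have i3 : IntegrableOn (fun p : ℝ × ℝ => p.1 * p.2) P volume :=
    (Continuous.continuousOn (by fun_prop)).integrableOn_compact hc
  have e : ∀ p : ℝ × ℝ, dotu t p ^ 2 =
      (cos t ^ 2 * p.1 ^ 2 + sin t ^ 2 * p.2 ^ 2) + (2 * cos t * sin t) * (p.1 * p.2) := by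
    intro p
    unfold dotu
    ring
  have i4 : IntegrableOn (fun p : ℝ × ℝ => cos t ^ 2 * p.1 ^ 2) P volume := i1.const_mul _
  have i5 : IntegrableOn (fun p : ℝ × ℝ => sin t ^ 2 * p.2 ^ 2) P volume := i2.const_mul _
  have i6 : IntegrableOn (fun p : ℝ × ℝ => (2 * cos t * sin t) * (p.1 * p.2)) P volume :=
    i3.const_mul _
  have i7 : IntegrableOn (fun p : ℝ × ℝ => cos t ^ 2 * p.1 ^ 2 + sin t ^ 2 * p.2 ^ 2) P volume :=
    i4.add i5
  simp only [e]
  rw [integral_add i7 i6, integral_add i4 i5, integral_const_mul, integral_const_mul,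
    integral_const_mul, hP.m11, hP.m22, hP.m12]
  have := sin_sq_add_cos_sq t
  linear_combination (area P / 3) * this

end CW2M

open CW2M in
/-- **CW2**. -/
theorem specCW2 (hCQL : SpecCQL) (hSM2 : SpecSM2) (hGDU : SpecGDU) (hWB2 : SpecWB2)
    (hBND : SpecBND) : SpecCW2 := by
  intro P hP r1 r2 hr1 hr1' hr2 hr2'
  have hQ := hP.cc
  have hsym := hP.sym
  have hwid := hP.wpos
  have hWB := hWB2
  obtain ⟨w1, w2, w3, w4, -, -, -, w8, -, w10, -⟩ := hWB
  have hper : ∀ θ, sup2 P (θ + π) = sup2 P θ := SQFM.sup_sym hWB2 hQ hsym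
  have hw : ∀ θ, wid P θ / 2 = sup2 P θ := by
    intro θ
    unfold wid
    rw [hper θ]
    ring
  have hm : ∀ θ, mid P θ = 0 := by
    intro θ
    unfold mid
    rw [hper θ]
    ring
  have hpos : ∀ θ, 0 < sup2 P θ := fun θ => by rw [← hw θ]; have := hwid θ; positivity
  obtain ⟨Λ, hΛ0, -, hΛ⟩ := w3 P hQ
  have hcont : Continuous (sup2 P) := (w10 P hQ).1
  have hx : ∀ s, xf P s = 1 / sup2 P s ^ 2 := by
    intro s
    unfold xf
    rw [hw]
  -- the weights
  have hQB : ∀ s, QB r1 0 r2 s s = r1 * cos s ^ 2 + r2 * sin s ^ 2 := by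
    intro s
    unfold QB
    ring
  have hAdm : Adm r1 0 r2 1 (sup2 P) := by
    refine ⟨one_pos, fun θ => ?_⟩
    rw [hQB]
    have h1 : 1 ≤ sup2 P θ ^ 2 := by
      have h2 := (hBND P hP θ).2.1
      rw [hx, div_le_one (by have := hpos θ; positivity)] at h2
      exact h2
    have h3 := sin_sq_add_cos_sq θ
    have c0 := sq_nonneg (cos θ)
    have s0 := sq_nonneg (sin θ)
    refine ⟨by positivity, ?_⟩
    have h4 : r1 * cos θ ^ 2 ≤ 4 / 5 * cos θ ^ 2 := mul_le_mul_of_nonneg_right hr1' c0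
    have h5 : r2 * sin θ ^ 2 ≤ 4 / 5 * sin θ ^ 2 := mul_le_mul_of_nonneg_right hr2' s0
    nlinarith
  have hwt : ∀ s, wt r1 0 r2 1 (sup2 P) s =
      xf P s * (1 - (r1 * cos s ^ 2 + r2 * sin s ^ 2) * xf P s) := by
    intro s
    unfold wt
    rw [hQB, hx]
    ring
  have hC := hCQL (sup2 P) Λ hΛ0 hΛ hper hpos (SQFM.sup_class hWB2 hQ) r1 0 r2 1 hAdm
  have hwt0 : ∀ t, 0 ≤ wt r1 0 r2 1 (sup2 P) t := fun t => SQFM.wt_nonneg hpos hAdm t
  have hwtc : Continuous (fun t => wt r1 0 r2 1 (sup2 P) t) := SQFM.wt_cont hpos hcont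
  have hPm : MeasurableSet P := hQ.2.1.isClosed.measurableSet
  have hPfin : volume P ≠ ⊤ := hQ.2.1.measure_lt_top.ne
  have ha0 := hP.apos
  have hconst : ∀ a : ℝ, ∫ _ in P, a = a * area P := by
    intro a
    rw [setIntegral_const]
    unfold area Measure.real
    rw [smul_eq_mul, mul_comm]
  have hic : ∀ a : ℝ, IntegrableOn (fun _ : ℝ × ℝ => a) P volume := fun a =>
    integrableOn_const hPfin
  -- the relative position
  have hσ : ∀ t p, (dotu t p - mid P t) / (wid P t / 2) = dotu t p / sup2 P t := by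
    intro t p
    rw [hm, hw, sub_zero]
  have hcd : ∀ t, Continuous (fun p : ℝ × ℝ => dotu t p / sup2 P t) := by
    intro t
    have := SQFM.cont_dotu t
    fun_prop
  have hG : ∀ k t, IG (fun x => x ^ (2 * k) - mu k) (sup2 P) t =
      ∫ p in P, ((dotu t p / sup2 P t) ^ (2 * k) - mu k) := by
    intro k t
    rw [← hGDU P hQ hwid (fun x => x ^ (2 * k) - mu k) (by fun_prop) t]
    simp only [hσ]
  have hsq : ∀ t, ∫ p in P, (dotu t p / sup2 P t) ^ 2 = area P * xf P t / 3 := by
    intro t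
    have h1 : ∀ p : ℝ × ℝ, (dotu t p / sup2 P t) ^ 2 = xf P t * dotu t p ^ 2 := by
      intro p
      rw [hx, div_pow]
      ring
    simp only [h1]
    rw [integral_const_mul, moment hP t]
    ring
  have his : ∀ t, IntegrableOn (fun p : ℝ × ℝ => (dotu t p / sup2 P t) ^ 2) P volume := fun t => by
    have := hcd t
    exact (Continuous.continuousOn (by fun_prop)).integrableOn_compact hQ.2.1
  have hgoal : ∀ f : ℝ → ℝ, (∫ s in (0 : ℝ)..(2 * π),
      xf P s * (1 - (r1 * cos s ^ 2 + r2 * sin s ^ 2) * xf P s) * f s) =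
      (∫ s in (0 : ℝ)..(2 * π), wt r1 0 r2 1 (sup2 P) s * (area P * f s)) / area P := by
    intro f
    rw [eq_div_iff ha0.ne', ← intervalIntegral.integral_mul_const]
    congr 1
    funext s
    rw [hwt]
    ring
  constructor
  · -- the power `2`
    rw [hgoal fun s => Sf (xf P s)]
    apply div_nonneg _ ha0.le
    have h1 := (hC 1).2
    have h2 : ∀ t, IG (fun x => x ^ (2 * 1) - mu 1) (sup2 P) t = (-2) * (area P * Sf (xf P t)) := by
      intro t
      rw [hG 1 t]
      have hmu : mu 1 = 1 / 4 := by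
        unfold mu ww
        norm_num
      rw [hmu]
      simp only [mul_one]
      rw [integral_sub (his t) (hic _), hsq, hconst]
      unfold Sf
      ring
    simp only [h2] at h1
    have h3 : (fun t => wt r1 0 r2 1 (sup2 P) t * ((-2) * (area P * Sf (xf P t)))) =
        fun t => (-2) * (wt r1 0 r2 1 (sup2 P) t * (area P * Sf (xf P t))) := by
      funext t
      ring
    rw [h3, intervalIntegral.integral_const_mul] at h1
    linarith
  · rw [hgoal (Rf P)]
    apply div_nonneg _ ha0.le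
    refine weighted (a := area P) (I := fun k t => IG (fun x => x ^ (2 * (k + 2)) - mu (k + 2)) (sup2 P) t)
      ha0.le hwt0 hwtc (fun k => hC (k + 2)) ?_
    intro ε hε
    obtain ⟨N, c, hc0, h1, h2⟩ := hSM2 ε hε
    refine ⟨N, c, hc0, fun t => ?_⟩
    have hS1 : ∀ p ∈ P, |dotu t p / sup2 P t| ≤ 1 := by
      intro p hp
      rw [abs_div, abs_of_pos (hpos t), div_le_one (hpos t), abs_le]
      refine ⟨?_, w1 P hQ t p hp⟩
      have h3 := w1 P hQ t (-p) (hsym p hp)
      rw [dotu_neg] at h3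
      linarith
    have hc' := hcd t
    have hi0 : IntegrableOn (fun p : ℝ × ℝ => √(1 - (dotu t p / sup2 P t) ^ 2)) P volume :=
      (Continuous.continuousOn (by fun_prop)).integrableOn_compact hQ.2.1
    have hik : ∀ k, IntegrableOn (fun p : ℝ × ℝ =>
        ((dotu t p / sup2 P t) ^ (2 * (k + 2)) - mu (k + 2))) P volume := fun k =>
      (Continuous.continuousOn (by fun_prop)).integrableOn_compact hQ.2.1
    have hsum : IntegrableOn (fun p : ℝ × ℝ => ∑ k ∈ Finset.range N,
        c k * ((dotu t p / sup2 P t) ^ (2 * (k + 2)) - mu (k + 2))) P volume :=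
      integrable_finsetSum _ fun k _ => (hik k).const_mul (c k)
    have hnn : 0 ≤ ∫ p in P, ((√(1 - (dotu t p / sup2 P t) ^ 2) +
        ((dotu t p / sup2 P t) ^ 2 / 2 + (-1 / 8 - kap))) +
        (∑ k ∈ Finset.range N,
          c k * ((dotu t p / sup2 P t) ^ (2 * (k + 2)) - mu (k + 2))) +
        2 * ε) :=
      setIntegral_nonneg hPm fun p hp => ptw h1 h2 _ (hS1 p hp)
    have hs2 : IntegrableOn (fun p : ℝ × ℝ => (dotu t p / sup2 P t) ^ 2 / 2) P volume :=
      (his t).div_const 2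
    have hi3 : IntegrableOn (fun p : ℝ × ℝ =>
        (dotu t p / sup2 P t) ^ 2 / 2 + (-1 / 8 - kap)) P volume := hs2.add (hic _)
    have hi1 : IntegrableOn (fun p : ℝ × ℝ => √(1 - (dotu t p / sup2 P t) ^ 2) +
        ((dotu t p / sup2 P t) ^ 2 / 2 + (-1 / 8 - kap))) P volume := hi0.add hi3
    have hi2 : IntegrableOn (fun p : ℝ × ℝ => (√(1 - (dotu t p / sup2 P t) ^ 2) +
        ((dotu t p / sup2 P t) ^ 2 / 2 + (-1 / 8 - kap))) +
        ∑ k ∈ Finset.range N,
          c k * ((dotu t p / sup2 P t) ^ (2 * (k + 2)) - mu (k + 2))) P volume :=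
      hi1.add hsum
    rw [integral_add hi2 (hic (2 * ε)), integral_add hi1 hsum, integral_add hi0 hi3,
      integral_add hs2 (hic _), integral_div, hsq, hconst, hconst,
      integral_finsetSum _ (fun k _ => (hik k).const_mul (c k))] at hnn
    have e : ∑ k ∈ Finset.range N, (∫ p in P,
        c k * ((dotu t p / sup2 P t) ^ (2 * (k + 2)) - mu (k + 2))) =
        ∑ k ∈ Finset.range N, c k * IG (fun x => x ^ (2 * (k + 2)) - mu (k + 2)) (sup2 P) t := by
      refine Finset.sum_congr rfl fun k _ => ?_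
      rw [integral_const_mul, hG (k + 2)]
    rw [e] at hnn
    have hq : qf P t = ∫ p in P, √(1 - (dotu t p / sup2 P t) ^ 2) := by
      unfold qf
      simp only [hσ]
    have hR : area P * Rf P t = qf P t - kap * area P - area P / 8 + area P * xf P t / 6 := by
      unfold Rf Sf
      field_simp
      ring
    rw [hR, hq]
    linarith

end Pool.Agent.Lib.MP_084b88_gt.LG
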