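import Pool.Agent.Lib.MP_084b88_gt.LG.Spec

/-!
# MP_084b88_gt, project LG: module DIA (helper45)
-/

set_option autoImplicit false

open MeasureTheory Set Real Filter Topology
open scoped Pointwise InnerProductSpace

namespace Pool.Agent.Lib.MP_084b88_gt.LG

open Pool.Agent.Lib.MP_084b88_gt.CW
open Pool.Agent.Lib.MP_084b88_gt.SY

namespace DIAM

theorem col_rot_pi (R : O3) (t : ℝ) : col (R * rot (t + π)) 0 = -(col (R * rot t) 0) := by
  rw [col_rot_zero, col_rot_zero, cos_add_pi, sin_add_pi]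
  module

theorem col_rot_z (R : O3) : col (R * rot 0) 0 = col R 0 := by
  rw [col_rot_zero, cos_zero, sin_zero]
  module

end DIAM

open DIAM in
/-- **DIA**. -/
theorem specDIA (hAVH : SpecAVH) (hHSB : SpecHSB) (hHAA : SpecHAA) (hMEA : SpecMEA)
    (hLEN : SpecLEN) (hCAU : SpecCAU) : SpecDIA := by
  intro K hK hi V1 V2 hST R t
  obtain ⟨μ, hμ⟩ := hHAA
  have hprob : IsProbabilityMeasure μ := hμ.1
  obtain ⟨-, -, -, -, -, hb6, -, -, hb9⟩ := hHSB E3
  obtain ⟨-, -, -, hsup, hcw, -, -, -, -⟩ := hMEA K hK hi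
  have h1 := hLEN μ hμ K hK hi
  have h2 := (hCAU μ hμ K hK hi V1 V2 hST).2
  have hpi := pi_pos
  have hV1 : V1 = 2 * ∫ S, wid (pr S K) 0 ∂μ := by
    rw [h1] at h2
    have h3 : π * (V1 - 2 * ∫ S, wid (pr S K) 0 ∂μ) = 0 := by linarith
    rcases mul_eq_zero.1 h3 with h | h
    · exact absurd h hpi.ne'
    · linarith
  obtain ⟨x, hx, hxe⟩ := hb9 K hK (col (R * rot t) 0)
  obtain ⟨y, hy, hye⟩ := hb9 K hK (-(col (R * rot t) 0))
  have hw : wid (pr R K) t ≤ ‖x - y‖ := by
    unfold wid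
    rw [hsup R t, hsup R (t + π), col_rot_pi, ← hxe, ← hye, inner_neg_left, ← sub_eq_add_neg,
      ← inner_sub_right]
    refine (real_inner_le_norm _ _).trans ?_
    rw [norm_col, one_mul]
  have hS : ∀ S : O3, |⟪col S 0, x - y⟫_ℝ| ≤ wid (pr S K) 0 := by
    intro S
    unfold wid
    rw [hsup S 0, hsup S (0 + π), col_rot_pi, col_rot_z]
    have a1 := hb6 K hK (col S 0) x hx
    have a2 := hb6 K hK (col S 0) y hy
    have a3 := hb6 K hK (-(col S 0)) x hx
    have a4 := hb6 K hK (-(col S 0)) y hy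
    rw [inner_neg_left] at a3 a4
    rw [inner_sub_right, abs_le]
    constructor <;> linarith
  have hcont : Continuous (fun S : O3 => |⟪col S 0, x - y⟫_ℝ|) :=
    ((continuous_col 0).inner continuous_const).abs
  have hmean : ∫ S, |⟪col S 0, x - y⟫_ℝ| ∂μ = ‖x - y‖ / 2 := by
    rw [← hAVH μ hμ (x - y)]
    have hmp := hμ.2.1 (cyc 0)
    have h4 := integral_map (μ := μ) (φ := fun S : O3 => S * cyc 0)
      hmp.measurable.aemeasurable (f := fun S : O3 => |⟪col S 0, x - y⟫_ℝ|)
      hcont.aestronglyMeasurable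
    rw [hmp.map_eq] at h4
    rw [h4]
    refine integral_congr_ae (Eventually.of_forall fun S => ?_)
    change |⟪col (S * cyc 0) 0, x - y⟫_ℝ| = _
    rw [col_cyc_zero]
  have hint1 : Integrable (fun S : O3 => |⟪col S 0, x - y⟫_ℝ|) μ := by
    refine Integrable.of_bound hcont.aestronglyMeasurable ‖x - y‖ (Eventually.of_forall fun S => ?_)
    rw [Real.norm_eq_abs, abs_abs]
    refine (abs_real_inner_le_norm _ _).trans ?_
    rw [norm_col, one_mul]
  have hint2 : Integrable (fun S : O3 => wid (pr S K) 0) μ := by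
    obtain ⟨C, hC⟩ := (isCompact_univ (X := O3)).exists_bound_of_continuousOn hcw.continuousOn
    exact Integrable.of_bound hcw.aestronglyMeasurable C
      (Eventually.of_forall fun S => hC S (mem_univ S))
  have hmono : ‖x - y‖ / 2 ≤ ∫ S, wid (pr S K) 0 ∂μ := by
    rw [← hmean]
    exact integral_mono hint1 hint2 hS
  rw [hV1]
  linarith

end Pool.Agent.Lib.MP_084b88_gt.LG
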