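import Pool.Agent.Lib.MP_084b88_gt.LG.Spec

/-!
# MP_084b88_gt, project LG, module LEL
-/

set_option autoImplicit false

open MeasureTheory Set Real Filter Topology
open scoped Pointwise InnerProductSpace

namespace Pool.Agent.Lib.MP_084b88_gt.LG

open Pool.Agent.Lib.MP_084b88_gt.CW
open Pool.Agent.Lib.MP_084b88_gt.SY

namespace LELM

/-- second moment in direction `θ` is positive -/
theorem mom_pos {P : Set (ℝ × ℝ)} (hP : CC P) (ha : 0 < area P) (θ : ℝ) :
    0 < ∫ p in P, dotu θ p ^ 2 := by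
  have hcont : Continuous (fun p : ℝ × ℝ => dotu θ p ^ 2) := by
    unfold dotu
    fun_prop
  have hint : IntegrableOn (fun p : ℝ × ℝ => dotu θ p ^ 2) P :=
    hcont.continuousOn.integrableOn_compact hP.2.1
  have h0 : 0 ≤ ∫ p in P, dotu θ p ^ 2 := integral_nonneg (fun p => sq_nonneg _)
  rcases h0.lt_or_eq with h | h
  · exact h
  exfalso
  have hm := hP.2.1.measurableSet
  have h1 := (setIntegral_eq_zero_iff_of_nonneg_ae (μ := (volume : Measure (ℝ × ℝ)))
    (s := P) (f := fun p : ℝ × ℝ => dotu θ p ^ 2)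
    (Eventually.of_forall (fun p => sq_nonneg (dotu θ p))) hint).1 h.symm
  -- the line
  let l : ℝ × ℝ →ₗ[ℝ] ℝ :=
    { toFun := dotu θ
      map_add' := fun p q => by unfold dotu; simp; ring
      map_smul' := fun c p => by unfold dotu; simp; ring }
  have hker : (LinearMap.ker l) ≠ ⊤ := by
    intro ht
    have h2 : ((cos θ, sin θ) : ℝ × ℝ) ∈ LinearMap.ker l := by
      rw [ht]
      trivial
    rw [LinearMap.mem_ker] at h2
    have h3 : dotu θ (cos θ, sin θ) = 0 := h2
    unfold dotu at h3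
    simp only at h3
    have := sin_sq_add_cos_sq θ
    nlinarith
  have hnull := Measure.addHaar_submodule (volume : Measure (ℝ × ℝ)) (LinearMap.ker l) hker
  have h4 : ∀ᵐ p ∂(volume.restrict P), p ∈ (LinearMap.ker l : Set (ℝ × ℝ)) := by
    filter_upwards [h1] with p hp
    have h5 : dotu θ p ^ 2 = 0 := hp
    have h6 : dotu θ p = 0 := by
      exact pow_eq_zero_iff (two_ne_zero) |>.1 h5
    simp only [SetLike.mem_coe, LinearMap.mem_ker]
    exact h6
  have h5 : volume P = 0 := by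
    rw [ae_restrict_iff' hm] at h4
    have h6 : ∀ᵐ p : ℝ × ℝ, p ∉ (LinearMap.ker l : Set (ℝ × ℝ)) :=
      measure_eq_zero_iff_ae_notMem.1 hnull
    rw [measure_eq_zero_iff_ae_notMem]
    filter_upwards [h4, h6] with p hp1 hp2 hpP
    exact hp2 (hp1 hpP)
  unfold area at ha
  rw [h5] at ha
  simp at ha

/-- The inverse of `lm`. -/
noncomputable def LI (t0 a b : ℝ) : ℝ × ℝ →L[ℝ] ℝ × ℝ :=
  LinearMap.toContinuousLinearMap (Matrix.toLin (Module.Basis.finTwoProd ℝ) (Module.Basis.finTwoProd ℝ)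
    !![cos t0 / a, sin t0 / a; -(sin t0 / b), cos t0 / b])

theorem LI_apply (t0 a b : ℝ) (q : ℝ × ℝ) :
    LI t0 a b q = (cos t0 / a * q.1 + sin t0 / a * q.2, -(sin t0 / b) * q.1 + cos t0 / b * q.2) := by
  unfold LI
  simp only [LinearMap.coe_toContinuousLinearMap', Matrix.toLin_finTwoProd_apply]

theorem lm_LI {t0 a b : ℝ} (ha : 0 < a) (hb : 0 < b) (q : ℝ × ℝ) :
    lm t0 a b (LI t0 a b q) = q := by
  rw [LI_apply]
  unfold lm
  have hs := sin_sq_add_cos_sq t0
  apply Prod.ext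
  · simp only
    have e1 : a * (cos t0 / a * q.1 + sin t0 / a * q.2) = cos t0 * q.1 + sin t0 * q.2 := by
      field_simp
    have e2 : b * (-(sin t0 / b) * q.1 + cos t0 / b * q.2) = -sin t0 * q.1 + cos t0 * q.2 := by
      field_simp
    rw [e1, e2]
    linear_combination q.1 * hs
  · simp only
    have e1 : a * (cos t0 / a * q.1 + sin t0 / a * q.2) = cos t0 * q.1 + sin t0 * q.2 := by
      field_simp
    have e2 : b * (-(sin t0 / b) * q.1 + cos t0 / b * q.2) = -sin t0 * q.1 + cos t0 * q.2 := by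
      field_simp
    rw [e1, e2]
    linear_combination q.2 * hs

theorem exists_angle (hACV : SpecACV) {a b : ℝ} (ha : 0 < a) (hb : 0 < b) (s : ℝ) :
    ∃ θ e : ℝ, 0 < e ∧ a * cos θ = e * cos s ∧ b * sin θ = e * sin s := by
  obtain ⟨h1, -⟩ := hACV (1 / a ^ 2) (1 / b ^ 2) (by positivity) (by positivity)
  obtain ⟨hn, hc, hsn⟩ := h1 s
  refine ⟨thf (1 / a ^ 2) (1 / b ^ 2) s, 1 / √(nn (1 / a ^ 2) (1 / b ^ 2) s), by positivity,
    ?_, ?_⟩
  · rw [hc]
    have : √(1 / a ^ 2) = 1 / a := by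
      rw [one_div, sqrt_inv, sqrt_sq ha.le, one_div]
    rw [this]
    field_simp
  · rw [hsn]
    have : √(1 / b ^ 2) = 1 / b := by
      rw [one_div, sqrt_inv, sqrt_sq hb.le, one_div]
    rw [this]
    field_simp

end LELM

open LELM in
theorem specLEL (hAFQ : SpecAFQ) (hACV : SpecACV) : SpecLEL := by
  intro P hP hw hA
  have hcomp := hP.2.1
  have hintg : ∀ f : ℝ × ℝ → ℝ, Continuous f → IntegrableOn f P := fun f hf =>
    hf.continuousOn.integrableOn_compact hcomp
  set m11 : ℝ := 3 / area P * ∫ p in P, p.1 ^ 2 with hm11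
  set m22 : ℝ := 3 / area P * ∫ p in P, p.2 ^ 2 with hm22
  set m12 : ℝ := 3 / area P * ∫ p in P, p.1 * p.2 with hm12
  have hbil : ∀ θ φ : ℝ, 3 / area P * ∫ p in P, dotu θ p * dotu φ p =
      m11 * (cos θ * cos φ) + m12 * (cos θ * sin φ + sin θ * cos φ) + m22 * (sin θ * sin φ) := by
    intro θ φ
    have e1 : ∀ p : ℝ × ℝ, dotu θ p * dotu φ p = (cos θ * cos φ) * p.1 ^ 2 +
        ((cos θ * sin φ + sin θ * cos φ) * (p.1 * p.2) + (sin θ * sin φ) * p.2 ^ 2) := by
      intro p
      unfold dotu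
      ring
    simp_rw [e1]
    rw [integral_add, integral_add, integral_const_mul, integral_const_mul, integral_const_mul]
    · rw [hm11, hm22, hm12]
      ring
    · exact (hintg _ (by fun_prop))
    · exact (hintg _ (by fun_prop))
    · exact (hintg _ (by fun_prop))
    · exact (hintg _ (by fun_prop))
  set z : ℂ := ⟨(m11 - m22) / 2, m12⟩ with hz
  set t0 : ℝ := Complex.arg z / 2 with ht0
  set ρ : ℝ := ‖z‖ with hρ
  have hρ0 : 0 ≤ ρ := norm_nonneg z
  have hc2 : ρ * cos (2 * t0) = (m11 - m22) / 2 := by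
    have := Complex.norm_mul_cos_arg z
    rw [ht0, mul_div_cancel₀ _ (two_ne_zero)]
    rw [hρ, this]
  have hs2 : ρ * sin (2 * t0) = m12 := by
    have := Complex.norm_mul_sin_arg z
    rw [ht0, mul_div_cancel₀ _ (two_ne_zero)]
    rw [hρ, this]
  have hsq := sin_sq_add_cos_sq t0
  rw [cos_two_mul] at hc2
  rw [sin_two_mul] at hs2
  -- the three values of the bilinear form
  have hM0 : 3 / area P * ∫ p in P, dotu t0 p ^ 2 = (m11 + m22) / 2 + ρ := by
    have h := hbil t0 t0
    simp_rw [← sq] at h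
    rw [h]
    have e3 : m11 * cos t0 ^ 2 + m12 * (cos t0 * sin t0 + sin t0 * cos t0) + m22 * sin t0 ^ 2 =
        (m11 + m22) / 2 + ((m11 - m22) / 2 * (2 * cos t0 ^ 2 - 1) + m12 * (2 * sin t0 * cos t0)) := by
      linear_combination m22 * hsq
    rw [e3]
    congr 1
    rw [← hc2, ← hs2]
    have : (2 * cos t0 ^ 2 - 1) ^ 2 + (2 * sin t0 * cos t0) ^ 2 = 1 := by
      rw [← cos_two_mul, ← sin_two_mul]
      have := sin_sq_add_cos_sq (2 * t0)
      linarith
    linear_combination ρ * this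
  have hM1 : 3 / area P * ∫ p in P, dotu (t0 + π / 2) p ^ 2 = (m11 + m22) / 2 - ρ := by
    have h := hbil (t0 + π / 2) (t0 + π / 2)
    simp_rw [← sq] at h
    rw [h, cos_add_pi_div_two, sin_add_pi_div_two]
    have e3 : m11 * (-sin t0) ^ 2 + m12 * (-sin t0 * cos t0 + cos t0 * -sin t0) +
        m22 * cos t0 ^ 2 =
        (m11 + m22) / 2 - ((m11 - m22) / 2 * (2 * cos t0 ^ 2 - 1) + m12 * (2 * sin t0 * cos t0)) := by
      linear_combination m11 * hsq
    rw [e3]
    congr 1
    rw [← hc2, ← hs2]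
    have : (2 * cos t0 ^ 2 - 1) ^ 2 + (2 * sin t0 * cos t0) ^ 2 = 1 := by
      rw [← cos_two_mul, ← sin_two_mul]
      have := sin_sq_add_cos_sq (2 * t0)
      linarith
    linear_combination ρ * this
  have hM2 : 3 / area P * ∫ p in P, dotu t0 p * dotu (t0 + π / 2) p = 0 := by
    rw [hbil, cos_add_pi_div_two, sin_add_pi_div_two]
    have e3 : m11 * (cos t0 * -sin t0) + m12 * (cos t0 * cos t0 + sin t0 * -sin t0) +
        m22 * (sin t0 * cos t0) =
        m12 * (2 * cos t0 ^ 2 - 1) - (m11 - m22) / 2 * (2 * sin t0 * cos t0) := by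
      linear_combination (-m12) * hsq
    rw [e3, ← hc2, ← hs2]
    ring
  have hpos1 : 0 < (m11 + m22) / 2 + ρ := by
    rw [← hM0]
    have := mom_pos hP hA t0
    positivity
  have hpos2 : 0 < (m11 + m22) / 2 - ρ := by
    rw [← hM1]
    have := mom_pos hP hA (t0 + π / 2)
    positivity
  set a : ℝ := √((m11 + m22) / 2 + ρ) with ha
  set b : ℝ := √((m11 + m22) / 2 - ρ) with hb
  have ha0 : 0 < a := sqrt_pos.2 hpos1
  have hb0 : 0 < b := sqrt_pos.2 hpos2
  have hba : b ≤ a := sqrt_le_sqrt (by linarith)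
  have ha2 : a ^ 2 = (m11 + m22) / 2 + ρ := sq_sqrt hpos1.le
  have hb2 : b ^ 2 = (m11 + m22) / 2 - ρ := sq_sqrt hpos2.le
  set P' : Set (ℝ × ℝ) := LI t0 a b '' P with hP'
  have hPP : P = lm t0 a b '' P' := by
    rw [hP', image_image]
    have : (fun x => lm t0 a b ((LI t0 a b) x)) = id := funext (lm_LI ha0 hb0)
    rw [this, image_id]
  have hCC : CC P' := by
    refine ⟨?_, hcomp.image (LI t0 a b).continuous, hP.2.2.image _⟩
    exact hP.1.linear_image (LI t0 a b : ℝ × ℝ →ₗ[ℝ] ℝ × ℝ)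
  obtain ⟨-, hAr, hI, hdir⟩ := hAFQ P' t0 a b hCC ha0 hb0
  rw [← hPP] at hAr hI hdir
  have hA' : 0 < area P' := by
    have : 0 < a * b * area P' := by rw [← hAr]; exact hA
    exact pos_of_mul_pos_right this (by positivity)
  have hd0 : ∀ q, dotu t0 (lm t0 a b q) = a * q.1 := by
    intro q
    unfold dotu lm
    simp only
    linear_combination (a * q.1) * hsq
  have hd1 : ∀ q, dotu (t0 + π / 2) (lm t0 a b q) = b * q.2 := by
    intro q
    unfold dotu lm
    simp only
    rw [cos_add_pi_div_two, sin_add_pi_div_two]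
    linear_combination (b * q.2) * hsq
  refine ⟨t0, a, b, P', hb0, hba, hPP, hCC, ?_, hA', ?_, ?_, ?_, ?_⟩
  · intro s
    obtain ⟨θ, e, he, h1, h2⟩ := exists_angle hACV ha0 hb0 s
    obtain ⟨-, h3, -⟩ := hdir s θ e he h1 h2
    have h4 := hw (t0 + θ)
    rw [h3] at h4
    exact pos_of_mul_pos_right h4 he.le
  · rintro hsym _ ⟨p, hp, rfl⟩
    exact ⟨-p, hsym p hp, by simp⟩
  · have h1 := hI (fun p => dotu t0 p ^ 2)
    simp only [hd0, mul_pow] at h1
    rw [integral_const_mul] at h1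
    have h2 : ∫ p in P, dotu t0 p ^ 2 = area P / 3 * a ^ 2 := by
      rw [ha2, ← hM0]
      field_simp
    rw [h2, hAr] at h1
    have h3 : a * b * a ^ 2 ≠ 0 := by positivity
    apply mul_left_cancel₀ h3
    linarith
  · have h1 := hI (fun p => dotu (t0 + π / 2) p ^ 2)
    simp only [hd1, mul_pow] at h1
    rw [integral_const_mul] at h1
    have h2 : ∫ p in P, dotu (t0 + π / 2) p ^ 2 = area P / 3 * b ^ 2 := by
      rw [hb2, ← hM1]
      field_simp
    rw [h2, hAr] at h1
    have h3 : a * b * b ^ 2 ≠ 0 := by positivity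
    apply mul_left_cancel₀ h3
    linarith
  · have h1 := hI (fun p => dotu t0 p * dotu (t0 + π / 2) p)
    simp only [hd0, hd1] at h1
    have e : ∀ q : ℝ × ℝ, a * q.1 * (b * q.2) = (a * b) * (q.1 * q.2) := fun q => by ring
    simp_rw [e] at h1
    rw [integral_const_mul] at h1
    have h2 : ∫ p in P, dotu t0 p * dotu (t0 + π / 2) p = 0 := by
      have h3 : (3 / area P) ≠ 0 := by positivity
      exact (mul_eq_zero.1 hM2).resolve_left h3
    rw [h2] at h1
    have h3 : a * b * (a * b) ≠ 0 := by positivity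
    apply mul_left_cancel₀ h3
    rw [mul_zero]
    linarith

end Pool.Agent.Lib.MP_084b88_gt.LG
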