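import Pool.Agent.Lib.MP_084b88_gt.LG.Spec
import Pool.Agent.Lib.MP_084b88_gt.PC.Spec

/-!
# MP_084b88_gt, project LG: module PCC (pair coupling)
-/

set_option autoImplicit false

open MeasureTheory Set Real Filter Topology
open scoped Pointwise InnerProductSpace

namespace Pool.Agent.Lib.MP_084b88_gt.LG

open Pool.Agent.Lib.MP_084b88_gt.CW

/-- **PCC**. -/
theorem specPCC (hPCB : PC.SpecPCB) (hCUT : PC.SpecCUT) : SpecPCC := by
  intro P hP l hl s
  obtain ⟨-, hx1, hx2, -, -, hk⟩ := hPCB P hP.cc hP.sym hP.apos hP.m11 hP.m22 hP.m12 s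
    (xf P s) (xf P (s + π / 2)) rfl rfl
  obtain ⟨c1, c2, c3, c4, c5, c6, c7, c8, c9⟩ := hCUT _ _ hx1 hx2 hk
  simp only [pairQ, List.mem_cons, List.not_mem_nil, or_false] at hl
  rcases hl with rfl | rfl | rfl | rfl | rfl | rfl | rfl | rfl | rfl <;> push_cast <;> linarith

end Pool.Agent.Lib.MP_084b88_gt.LG
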