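import Pool.Agent.Lib.MP_084b88_gt.LG.Spec

/-!
# MP_084b88_gt, project LG, module PLN: the planar theorem (helper28)
-/

set_option autoImplicit false

open MeasureTheory Set Real Filter Topology
open scoped Pointwise InnerProductSpace

namespace Pool.Agent.Lib.MP_084b88_gt.LG

open Pool.Agent.Lib.MP_084b88_gt.CW
open Pool.Agent.Lib.MP_084b88_gt.SY

namespace PLNM

/-- polar coordinates -/
theorem polar {a b : ℝ} (hb : 0 < b) (hab : b ≤ a) (θ : ℝ) :
    ∃ s e : ℝ, 0 < e ∧ b ≤ e ∧ a * cos θ = e * cos s ∧ b * sin θ = e * sin s := by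
  have ha : 0 < a := lt_of_lt_of_le hb hab
  set z : ℂ := ⟨a * cos θ, b * sin θ⟩ with hz
  have h1 : ‖z‖ ^ 2 = (a * cos θ) ^ 2 + (b * sin θ) ^ 2 := by
    rw [Complex.sq_norm, Complex.normSq_apply, hz]
    ring
  have h2 : b ^ 2 ≤ ‖z‖ ^ 2 := by
    rw [h1]
    have h3 := sin_sq_add_cos_sq θ
    have h4 : b ^ 2 ≤ a ^ 2 := pow_le_pow_left₀ hb.le hab 2
    have h5 : b ^ 2 * cos θ ^ 2 ≤ a ^ 2 * cos θ ^ 2 :=
      mul_le_mul_of_nonneg_right h4 (sq_nonneg _)
    have h6 : b ^ 2 = b ^ 2 * cos θ ^ 2 + b ^ 2 * sin θ ^ 2 := by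
      rw [← mul_add, add_comm (cos θ ^ 2), h3, mul_one]
    rw [mul_pow, mul_pow]
    linarith
  have h3 : b ≤ ‖z‖ := le_of_sq_le_sq h2 (norm_nonneg z)
  have h4 : 0 < ‖z‖ := lt_of_lt_of_le hb h3
  have h5 : z ≠ 0 := norm_pos_iff.1 h4
  refine ⟨Complex.arg z, ‖z‖, h4, h3, ?_, ?_⟩
  · rw [Complex.cos_arg h5, mul_div_cancel₀ _ h4.ne']
  · rw [Complex.sin_arg, mul_div_cancel₀ _ h4.ne']

end PLNM

open PLNM

/-- PLN. -/
theorem specPLN (b0 : ℝ) (hb0 : 0 < b0) (hLEL : SpecLEL) (hAFQ : SpecAFQ) (hACV : SpecACV)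
    (hLGQ : SpecLGQ) (hWGC : SpecWGC) (hCNT : SpecCNT) (hCERT : SpecCERT b0) (hREG : SpecREG)
    (hWB2 : SpecWB2) : SpecPLN b0 := by
  intro P hP hsym harea b hb hlo hhi
  obtain ⟨-, -, -, -, -, -, -, -, -, hcont, hper⟩ := hWB2
  have hbb : 0 < b0 * b := mul_pos hb0 hb
  have hwpos : ∀ θ, 0 < wid P θ := fun t => by
    have := hlo t
    linarith
  obtain ⟨t0, a, b', P', hb', hba, hPP, hP', hw', ha', hsym', h11, h22, h12⟩ :=
    hLEL P hP hwpos harea
  have ha : 0 < a := lt_of_lt_of_le hb' hba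
  have hIso : Iso P' := ⟨hP', hsym' hsym, hw', ha', h11, h22, h12⟩
  have hLg := hLGQ P' hIso
  obtain ⟨-, hAr, -, hAf⟩ := hAFQ P' t0 a b' hP' ha hb'
  rw [← hPP] at hAr hAf
  have hwid1 : ∀ s, 1 ≤ wid P' s / 2 := by
    intro s
    have h1 := hLg.x2 s
    unfold xf at h1
    have h2 : 0 < wid P' s / 2 := by
      have := hw' s
      linarith
    rw [div_le_one (by positivity)] at h1
    exact le_of_sq_le_sq (by rw [one_pow]; exact h1) h2.le
  have hwid2 : ∀ s, (wid P' s / 2) ^ 2 ≤ 2 := by
    intro s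
    have h1 := hLg.x1 s
    unfold xf at h1
    have h2 : 0 < (wid P' s / 2) ^ 2 := by
      have := hw' s
      positivity
    rw [le_div_iff₀ h2] at h1
    linarith
  by_cases hB : (b / b') ^ 2 ≤ 4
  · refine hREG P hP hsym harea b hb fun t => ?_
    have hb2 : b ≤ 2 * b' := by
      have h1 : b / b' ≤ 2 := by
        refine le_of_sq_le_sq ?_ (by norm_num)
        norm_num
        exact hB
      rwa [div_le_iff₀ hb'] at h1
    obtain ⟨s, e, he, hbe, h1, h2⟩ := polar hb' hba (t - t0)
    have h3 := (hAf s (t - t0) e he h1 h2).2.1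
    rw [add_sub_cancel] at h3
    rw [h3]
    have h4 := hwid1 s
    have h5 : b' * 1 ≤ e * (wid P' s / 2) := mul_le_mul hbe h4 (by norm_num) he.le
    have h6 : e * wid P' s / 2 = e * (wid P' s / 2) := by ring
    rw [h6]
    linarith
  · push Not at hB
    set A : ℝ := (b / a) ^ 2 with hA
    set B : ℝ := (b / b') ^ 2 with hBdef
    have hA0 : 0 < A := by positivity
    have hB0 : 0 < B := by positivity
    have hsA : √A = b / a := Real.sqrt_sq (by positivity)
    have hsB : √B = b / b' := Real.sqrt_sq (by positivity)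
    have hA1 : 1 / 4 ≤ A := by
      have h1 := (hAf 0 0 a ha rfl (by rw [sin_zero, mul_zero, mul_zero])).2.1
      rw [add_zero] at h1
      have h2 := hhi t0
      rw [h1] at h2
      have h3 := hwid1 0
      have h4 : a * 1 ≤ a * (wid P' 0 / 2) := mul_le_mul_of_nonneg_left h3 ha.le
      have h5 : a ≤ 2 * b := by
        have h6 : a * wid P' 0 / 2 = a * (wid P' 0 / 2) := by ring
        rw [h6] at h2
        linarith
      have h6 : 1 / 2 ≤ b / a := by
        rw [le_div_iff₀ ha]
        linarith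
      calc (1 : ℝ) / 4 = (1 / 2) ^ 2 := by norm_num
        _ ≤ (b / a) ^ 2 := pow_le_pow_left₀ (by norm_num) h6 2
    have hAB : A ≤ B := by
      refine pow_le_pow_left₀ (by positivity) ?_ 2
      exact div_le_div_of_nonneg_left hb.le hb' hba
    have hB2 : B ≤ 2 / b0 ^ 2 := by
      have h1 := (hAf (π / 2) (π / 2) b' hb' (by rw [cos_pi_div_two, mul_zero, mul_zero])
        rfl).2.1
      have h2 := hlo (t0 + π / 2)
      rw [h1] at h2
      have h3 := hwid2 (π / 2)
      have h4 : b' * wid P' (π / 2) / 2 = b' * (wid P' (π / 2) / 2) := by ring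
      rw [h4] at h2
      have h5 : (b0 * b) ^ 2 ≤ (b' * (wid P' (π / 2) / 2)) ^ 2 := pow_le_pow_left₀ hbb.le h2 2
      have h6 : (b0 * b) ^ 2 ≤ b' ^ 2 * 2 := by
        refine h5.trans ?_
        rw [mul_pow]
        exact mul_le_mul_of_nonneg_left h3 (sq_nonneg _)
      rw [hBdef, div_pow, div_le_div_iff₀ (by positivity) (by positivity)]
      linarith
    obtain ⟨hth, hint⟩ := hACV A B hA0 hB0
    -- the data at the direction `t0 + thf A B s`
    have hdat : ∀ s, wid P (t0 + thf A B s) / 2 / b = wid P' s / 2 / √(nn A B s) ∧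
        qf P (t0 + thf A B s) = a * b' * qf P' s ∧
        1 / (wid P (t0 + thf A B s) / 2 / b) ^ 2 = nn A B s * xf P' s := by
      intro s
      obtain ⟨hn, hc, hs⟩ := hth s
      have hsn : 0 < √(nn A B s) := Real.sqrt_pos.2 hn
      have he : 0 < b / √(nn A B s) := div_pos hb hsn
      have h1 := hAf s (thf A B s) (b / √(nn A B s)) he
        (by rw [hc, hsA]; field_simp) (by rw [hs, hsB]; field_simp)
      have h2 : wid P (t0 + thf A B s) / 2 / b = wid P' s / 2 / √(nn A B s) := by
        rw [h1.2.1]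
        field_simp
      refine ⟨h2, (h1.2.2.2 (hw' s)).1, ?_⟩
      rw [h2, div_pow, Real.sq_sqrt hn.le]
      unfold xf
      have h3 := hw' s
      field_simp
    have hcert := hCERT (xf P') (Rf P') hLg A B hA1 hAB hB hB2 (by
      intro s
      obtain ⟨-, -, h3⟩ := hdat s
      rw [← h3]
      have h4 : b0 ≤ wid P (t0 + thf A B s) / 2 / b := by
        rw [le_div_iff₀ hb]
        exact hlo _
      have h5 : wid P (t0 + thf A B s) / 2 / b ≤ 2 := by
        rw [div_le_iff₀ hb]
        exact hhi _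
      have h6 : 0 < wid P (t0 + thf A B s) / 2 / b := lt_of_lt_of_le hb0 h4
      constructor
      · rw [div_le_div_iff₀ (by norm_num) (by positivity)]
        nlinarith
      · exact one_div_le_one_div_of_le (by positivity) (pow_le_pow_left₀ hb0.le h4 2))
    -- continuity and periodicity
    obtain ⟨hqc, hqp, -⟩ := hCNT P hP hwpos
    obtain ⟨-, -, -, -, hGW, -⟩ := hWGC
    obtain ⟨hGY, hWY⟩ := hGW b0 hb0
    have hwc : Continuous (fun t => wid P t / 2 / b) :=
      ((hcont P hP).2.div_const 2).div_const b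
    have hmaps : ∀ t, wid P t / 2 / b ∈ Ici b0 := by
      intro t
      rw [mem_Ici, le_div_iff₀ hb]
      exact hlo t
    have hGc : Continuous (fun t => GY (wid P t / 2 / b)) := hGY.comp_continuous hwc hmaps
    have hWc : Continuous (fun t => WY (wid P t / 2 / b)) := hWY.comp_continuous hwc hmaps
    have hFc : Continuous (fun t => kap * (GY (wid P t / 2 / b) - 1) * area P +
        WY (wid P t / 2 / b) * (qf P t - kap * area P)) :=
      ((continuous_const.mul (hGc.sub continuous_const)).mul continuous_const).add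
        (hWc.mul (hqc.sub continuous_const))
    have hwp : ∀ t, wid P (t + 2 * π) = wid P t := by
      intro t
      rw [two_mul, ← add_assoc, hper, hper]
    have hqp2 : ∀ t, qf P (t + 2 * π) = qf P t := by
      intro t
      rw [two_mul, ← add_assoc, hqp, hqp]
    have hI := hint (fun t => kap * (GY (wid P t / 2 / b) - 1) * area P +
      WY (wid P t / 2 / b) * (qf P t - kap * area P)) hFc (fun t => by
        simp only [hwp, hqp2]) t0
    have hpt : ∀ s, (kap * (GY (wid P (t0 + thf A B s) / 2 / b) - 1) * area P +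
        WY (wid P (t0 + thf A B s) / 2 / b) * (qf P (t0 + thf A B s) - kap * area P)) *
          (√A * √B / nn A B s) =
        (area P * (√A * √B)) * Jn (nn A B s) (xf P' s) (Rf P' s) := by
      intro s
      obtain ⟨-, h2, h3⟩ := hdat s
      obtain ⟨hn, -, -⟩ := hth s
      have h4 : qf P (t0 + thf A B s) - kap * area P =
          area P * (Sf (xf P' s) + Rf P' s) := by
        rw [h2, hAr]
        unfold Rf
        field_simp
        ring
      rw [h4]
      unfold GY WY Jn
      rw [h3]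
      ring
    unfold PIn
    rw [hI]
    have hI2 : ∫ s in (0 : ℝ)..(2 * π), (kap * (GY (wid P (t0 + thf A B s) / 2 / b) - 1) * area P +
        WY (wid P (t0 + thf A B s) / 2 / b) * (qf P (t0 + thf A B s) - kap * area P)) *
          (√A * √B / nn A B s) =
        ∫ s in (0 : ℝ)..(2 * π), (area P * (√A * √B)) * Jn (nn A B s) (xf P' s) (Rf P' s) :=
      intervalIntegral.integral_congr fun s _ => hpt s
    rw [hI2, intervalIntegral.integral_const_mul]
    exact mul_nonneg (by positivity) hcert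

end Pool.Agent.Lib.MP_084b88_gt.LG
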