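import Pool.Agent.Lib.MP_084b88_gt.LG.Spec

/-!
# MP_084b88_gt, project LG, module REG: regime I
-/

set_option autoImplicit false

open MeasureTheory Set Real Filter Topology
open scoped Pointwise InnerProductSpace

namespace Pool.Agent.Lib.MP_084b88_gt.LG

open Pool.Agent.Lib.MP_084b88_gt.CW
open Pool.Agent.Lib.MP_084b88_gt.SY

namespace REGM

/-- polar coordinates -/
theorem polar (u v : ℝ) (h : u ≠ 0 ∨ v ≠ 0) :
    ∃ s e : ℝ, 0 < e ∧ u = e * cos s ∧ v = e * sin s := by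
  have hz : (⟨u, v⟩ : ℂ) ≠ 0 := by
    intro h0
    have h1 := congrArg Complex.re h0
    have h2 := congrArg Complex.im h0
    simp only [Complex.zero_re, Complex.zero_im] at h1 h2
    rcases h with h | h
    · exact h h1
    · exact h h2
  refine ⟨Complex.arg ⟨u, v⟩, ‖(⟨u, v⟩ : ℂ)‖, norm_pos_iff.2 hz, ?_, ?_⟩
  · exact (Complex.norm_mul_cos_arg ⟨u, v⟩).symm
  · exact (Complex.norm_mul_sin_arg ⟨u, v⟩).symm

/-- the lower bound `π/4` for symmetric bodies -/
theorem lower (hLEL : SpecLEL) (hAFQ : SpecAFQ) (hBND : SpecBND) (P : Set (ℝ × ℝ)) (hP : CC P)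
    (hs : ∀ p ∈ P, -p ∈ P) (hw : ∀ θ, 0 < wid P θ) (ha : 0 < area P) (t : ℝ) :
    π / 4 * area P ≤ qf P t := by
  obtain ⟨t0, a, b, P', hb, hba, hPP, hC, hw', ha', hsym, h11, h22, h12⟩ := hLEL P hP hw ha
  have haa : 0 < a := lt_of_lt_of_le hb hba
  obtain ⟨-, hAr, -, hdir⟩ := hAFQ P' t0 a b hC haa hb
  have hne : a * cos (t - t0) ≠ 0 ∨ b * sin (t - t0) ≠ 0 := by
    by_contra hcon
    push Not at hcon
    obtain ⟨k1, k2⟩ := hcon
    have k3 := (mul_eq_zero.1 k1).resolve_left haa.ne'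
    have k4 := (mul_eq_zero.1 k2).resolve_left hb.ne'
    have k5 := cos_sq_add_sin_sq (t - t0)
    rw [k3, k4] at k5
    norm_num at k5
  obtain ⟨s, e, he, h1, h2⟩ := polar _ _ hne
  obtain ⟨-, -, -, hq⟩ := hdir s (t - t0) e he h1 h2
  have hq1 := (hq (hw' s)).1
  rw [← hPP] at hq1 hAr
  rw [add_sub_cancel] at hq1
  have hI : Iso P' := ⟨hC, hsym hs, hw', ha', h11, h22, h12⟩
  obtain ⟨x1, x2, x3, -⟩ := hBND P' hI s
  have hR : Rf P' s = qf P' s / area P' - kap - Sf (xf P' s) := rfl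
  rw [hR] at x3
  unfold Sf at x3
  have hpi := pi_gt_three
  have h5 : π / 4 ≤ qf P' s / area P' := by nlinarith
  rw [le_div_iff₀ ha'] at h5
  rw [hq1, hAr]
  have h6 := mul_le_mul_of_nonneg_left h5 (mul_pos haa hb).le
  linarith

end REGM

open REGM in
theorem specREG (hRG1 : SpecRG1) (hSQF : SpecSQF) (hLEL : SpecLEL) (hAFQ : SpecAFQ)
    (hBND : SpecBND) (hCNT : SpecCNT) (hWGC : SpecWGC) (hWB2 : SpecWB2) : SpecREG := by
  intro P hP hs ha b hb hbw
  have hy : ∀ t, 1 / 2 ≤ wid P t / 2 / b := by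
    intro t
    rw [le_div_iff₀ hb]
    linarith [hbw t]
  have hw : ∀ θ, 0 < wid P θ := by
    intro θ
    have h1 := hbw θ
    linarith
  obtain ⟨hqc, -, -⟩ := hCNT P hP hw
  have hwc : Continuous (wid P) := (hWB2.2.2.2.2.2.2.2.2.2.1 P hP).2
  have hyc : Continuous (fun t => wid P t / 2 / b) := (hwc.div_const 2).div_const b
  obtain ⟨-, -, -, -, hGW, -⟩ := hWGC
  obtain ⟨hG, hW⟩ := hGW (1 / 2) (by norm_num)
  have hGc : Continuous (fun t => GY (wid P t / 2 / b)) :=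
    hG.comp_continuous hyc fun t => hy t
  have hWc : Continuous (fun t => WY (wid P t / 2 / b)) :=
    hW.comp_continuous hyc fun t => hy t
  -- the old weighted inequality
  have hQB : ∀ θ, QB (b ^ 4 / 4) 0 (b ^ 4 / 4) θ θ = b ^ 4 / 4 := by
    intro θ
    unfold QB
    have := cos_sq_add_sin_sq θ
    linear_combination (b ^ 4 / 4) * this
  have hAdm : Adm (b ^ 4 / 4) 0 (b ^ 4 / 4) (5 / 4 * b ^ 2) (fun θ => wid P θ / 2) := by
    refine ⟨by positivity, fun θ => ?_⟩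
    rw [hQB θ]
    refine ⟨by positivity, ?_⟩
    have h2 : (b / 2) ^ 2 ≤ (wid P θ / 2) ^ 2 := pow_le_pow_left₀ (by positivity) (hbw θ) 2
    calc b ^ 4 / 4 = 4 / 5 * (5 / 4 * b ^ 2) * (b / 2) ^ 2 := by ring
      _ ≤ 4 / 5 * (5 / 4 * b ^ 2) * (wid P θ / 2) ^ 2 :=
        mul_le_mul_of_nonneg_left h2 (by positivity)
  have h1 := hSQF P hP hs hw _ _ _ _ hAdm
  have hwt : ∀ t, wt (b ^ 4 / 4) 0 (b ^ 4 / 4) (5 / 4 * b ^ 2) (fun θ => wid P θ / 2) t =
      (5 / (wid P t / 2 / b) ^ 2 - 1 / (wid P t / 2 / b) ^ 4) / 4 := by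
    intro t
    unfold wt
    rw [hQB t]
    have h3 : 0 < wid P t / 2 := by linarith [hw t]
    simp only
    generalize wid P t / 2 = y at *
    field_simp
  have hψc : Continuous (fun t => (5 / (wid P t / 2 / b) ^ 2 - 1 / (wid P t / 2 / b) ^ 4) / 4) := by
    have hne : ∀ t, wid P t / 2 / b ≠ 0 := fun t => (lt_of_lt_of_le (by norm_num) (hy t)).ne'
    exact ((continuous_const.div (hyc.pow 2) fun t => pow_ne_zero 2 (hne t)).sub
      (continuous_const.div (hyc.pow 4) fun t => pow_ne_zero 4 (hne t))).div_const 4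
  refine h1.trans ?_
  unfold PIn
  refine intervalIntegral.integral_mono_on (by positivity) ?_ ?_ ?_
  · have e : (fun t => wt (b ^ 4 / 4) 0 (b ^ 4 / 4) (5 / 4 * b ^ 2) (fun θ => wid P θ / 2) t *
        (qf P t - kap * area P)) = fun t =>
        (5 / (wid P t / 2 / b) ^ 2 - 1 / (wid P t / 2 / b) ^ 4) / 4 * (qf P t - kap * area P) := by
      funext t
      rw [hwt t]
    rw [e]
    exact (hψc.mul (hqc.sub continuous_const)).intervalIntegrable _ _
  · exact ((((continuous_const.mul (hGc.sub continuous_const)).mul continuous_const)).add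
      (hWc.mul (hqc.sub continuous_const))).intervalIntegrable _ _
  · intro t _
    rw [hwt t]
    obtain ⟨k1, k2⟩ := hRG1 _ (hy t)
    have k3 := lower hLEL hAFQ hBND P hP hs hw ha t
    generalize WY (wid P t / 2 / b) = W at *
    generalize GY (wid P t / 2 / b) = Gv at *
    generalize (5 / (wid P t / 2 / b) ^ 2 - 1 / (wid P t / 2 / b) ^ 4) / 4 = ψ at *
    have k4 : 0 ≤ (W - ψ) * (qf P t - π / 4 * area P) :=
      mul_nonneg (by linarith) (by linarith)
    have k5 : 0 ≤ (kap * (Gv - 1) + (W - ψ) * (π / 4 - kap)) * area P := mul_nonneg k2 ha.le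
    linarith

end Pool.Agent.Lib.MP_084b88_gt.LG
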