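import Pool.Agent.Lib.MP_084b88_gt.LG.Spec

/-!
# MP_084b88_gt, project LG, module RG1: the pointwise inequality for `y ≥ 1/2` (helper28)
-/

set_option autoImplicit false

open MeasureTheory Set Real Filter Topology
open scoped Pointwise InnerProductSpace

namespace Pool.Agent.Lib.MP_084b88_gt.LG

open Pool.Agent.Lib.MP_084b88_gt.CW
open Pool.Agent.Lib.MP_084b88_gt.SY

namespace RG1M

theorem pisq_lo : (9869 / 1000 : ℝ) < π ^ 2 := by
  have h := Real.pi_gt_d4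
  nlinarith

theorem pisq_hi : π ^ 2 < (9870 / 1000 : ℝ) := by
  have h := Real.pi_lt_d4
  have h0 := Real.pi_pos
  nlinarith

theorem kap_pos : 0 < kap := by
  unfold kap
  positivity

theorem taup_eq : taup = 32 / (3 * π ^ 2) - 1 := by
  unfold taup kap
  have h0 := Real.pi_pos
  field_simp
  ring

theorem taup_nonneg : 0 ≤ taup := by
  rw [taup_eq]
  have h1 := pisq_hi
  have h2 : 0 < π ^ 2 := by positivity
  rw [sub_nonneg, le_div_iff₀ (by positivity)]
  linarith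

theorem taup_le : taup ≤ 81 / 1000 := by
  rw [taup_eq]
  have h1 := pisq_lo
  have h2 : 0 < π ^ 2 := by positivity
  have h3 : 32 / (3 * π ^ 2) ≤ 1081 / 1000 := by
    rw [div_le_iff₀ (by positivity)]
    linarith
  linarith

theorem om_eq {y : ℝ} (hy : 0 < y) : om (1 / y ^ 2) = (1 + y) ^ 2 / (4 * y) := by
  have h1 : √(1 / y ^ 2) = 1 / y := by
    rw [show 1 / y ^ 2 = (1 / y) ^ 2 by field_simp, Real.sqrt_sq (by positivity)]
  unfold om
  rw [h1]
  field_simp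
  ring

theorem polyA {y : ℝ} (hy : 63 / 100 ≤ y) :
    81 / 1000 * ((4 * y ^ 2 - 1) ^ 2 * (1 + y) ^ 2) ≤ 4 * y ^ 7 := by
  obtain ⟨t, rfl⟩ : ∃ t, y = 63 / 100 + t := ⟨y - 63 / 100, by ring⟩
  have ht : 0 ≤ t := by linarith
  have h : 4 * (63 / 100 + t) ^ 7 -
      81 / 1000 * ((4 * (63 / 100 + t) ^ 2 - 1) ^ 2 * (1 + (63 / 100 + t)) ^ 2) =
      (4 * (63 / 100) ^ 7 - 81 / 1000 * ((4 * (63 / 100) ^ 2 - 1) ^ 2 * (1 + (63 / 100)) ^ 2) : ℝ) +
      t * (4 * t ^ 6 + (28 * (63 / 100) - 162 / 125) * t ^ 5 +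
        (84 * (63 / 100) ^ 2 - 6 * (162 / 125) * (63 / 100) - 324 / 125) * t ^ 4 +
        (140 * (63 / 100) ^ 3 - 15 * (162 / 125) * (63 / 100) ^ 2 - 5 * (324 / 125) * (63 / 100)
          - 81 / 125) * t ^ 3 +
        (140 * (63 / 100) ^ 4 - 20 * (162 / 125) * (63 / 100) ^ 3 - 10 * (324 / 125) * (63 / 100) ^ 2
          - 4 * (81 / 125) * (63 / 100) + 162 / 125) * t ^ 2 +
        (84 * (63 / 100) ^ 5 - 15 * (162 / 125) * (63 / 100) ^ 4 - 10 * (324 / 125) * (63 / 100) ^ 3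
          - 6 * (81 / 125) * (63 / 100) ^ 2 + 3 * (162 / 125) * (63 / 100) + 567 / 1000) * t +
        (28 * (63 / 100) ^ 6 - 6 * (162 / 125) * (63 / 100) ^ 5 - 5 * (324 / 125) * (63 / 100) ^ 4
          - 4 * (81 / 125) * (63 / 100) ^ 3 + 3 * (162 / 125) * (63 / 100) ^ 2
          + 2 * (567 / 1000) * (63 / 100) - 81 / 500)) := by
    ring
  have h2 : 0 ≤ 4 * (63 / 100 + t) ^ 7 -
      81 / 1000 * ((4 * (63 / 100 + t) ^ 2 - 1) ^ 2 * (1 + (63 / 100 + t)) ^ 2) := by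
    rw [h]
    norm_num
    positivity
  linarith

theorem polyB {y : ℝ} (h1 : 1 / 2 ≤ y) (h2 : y ≤ 64 / 100) :
    10257 / 10000 * y ^ 4 + 1462 / 10000 * ((1 - 5 / 2 * y ^ 2) ^ 2 / 4) ≤
      (y ^ 3 + 2 * y ^ 4 + y ^ 5) / 4 := by
  have ha : 0 ≤ y - 1 / 2 := by linarith
  have hb : 0 ≤ 64 / 100 - y := by linarith
  have h : (y ^ 3 + 2 * y ^ 4 + y ^ 5) / 4 - (10257 / 10000 * y ^ 4 +
      1462 / 10000 * ((1 - 5 / 2 * y ^ 2) ^ 2 / 4)) =
      3046875 / 153664 * (64 / 100 - y) ^ 5 +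
      43756875 / 153664 * (y - 1 / 2) * (64 / 100 - y) ^ 4 +
      1160225 / 1372 * (y - 1 / 2) ^ 2 * (64 / 100 - y) ^ 3 +
      9549889 / 9604 * (y - 1 / 2) ^ 3 * (64 / 100 - y) ^ 2 +
      29457903 / 60025 * (y - 1 / 2) ^ 4 * (64 / 100 - y) +
      4643603 / 60025 * (y - 1 / 2) ^ 5 := by
    ring
  have h3 : 0 ≤ (y ^ 3 + 2 * y ^ 4 + y ^ 5) / 4 - (10257 / 10000 * y ^ 4 +
      1462 / 10000 * ((1 - 5 / 2 * y ^ 2) ^ 2 / 4)) := by
    rw [h]
    positivity
  linarith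

end RG1M

open RG1M

/-- RG1. -/
theorem specRG1 (hWGC : SpecWGC) : SpecRG1 := by
  obtain ⟨-, -, -, hG, -, -⟩ := hWGC
  intro y hy
  have hy0 : 0 < y := by linarith
  have hz : 0 < 1 / y ^ 2 := by positivity
  have hk := kap_pos
  have ht0 := taup_nonneg
  have ht1 := taup_le
  have hom := om_eq hy0
  have hps : (5 / y ^ 2 - 1 / y ^ 4) / 4 = (5 * (1 / y ^ 2) - (1 / y ^ 2) ^ 2) / 4 := by
    field_simp
  unfold WY GY
  by_cases hc : 1 / y ^ 2 ≤ 5 / 2
  · have hW : WZ (1 / y ^ 2) = (5 / y ^ 2 - 1 / y ^ 4) / 4 := by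
      unfold WZ
      rw [if_pos hc, hps]
    refine ⟨hW.ge, ?_⟩
    rw [hW, sub_self, zero_mul, add_zero]
    refine mul_nonneg hk.le (sub_nonneg.2 (hG _ 1 hz ?_))
    rw [hW, hom]
    have hy2 : 2 / 5 ≤ y ^ 2 := by
      rw [div_le_iff₀ (by positivity)] at hc
      linarith
    have hy3 : 63 / 100 ≤ y := by
      by_contra hcon
      push Not at hcon
      nlinarith
    have hp := polyA hy3
    have h1 : (1 - (5 / y ^ 2 - 1 / y ^ 4) / 4) ^ 2 =
        (1 - y) ^ 2 * ((4 * y ^ 2 - 1) ^ 2 * (1 + y) ^ 2) / (16 * y ^ 8) := by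
      field_simp
      ring
    have h2 : (1 + y) ^ 2 / (4 * y) = 1 + (1 - y) ^ 2 * (4 * y ^ 7) / (16 * y ^ 8) := by
      field_simp
      ring
    have h3 : taup * (1 - (5 / y ^ 2 - 1 / y ^ 4) / 4) ^ 2 ≤
        (1 - y) ^ 2 * (4 * y ^ 7) / (16 * y ^ 8) := by
      refine (mul_le_mul_of_nonneg_right ht1 (sq_nonneg _)).trans ?_
      rw [h1]
      have h4 : 81 / 1000 * ((1 - y) ^ 2 * ((4 * y ^ 2 - 1) ^ 2 * (1 + y) ^ 2) / (16 * y ^ 8)) =
          (1 - y) ^ 2 * (81 / 1000 * ((4 * y ^ 2 - 1) ^ 2 * (1 + y) ^ 2)) / (16 * y ^ 8) := by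
        ring
      rw [h4]
      exact div_le_div_of_nonneg_right (mul_le_mul_of_nonneg_left hp (sq_nonneg _)) (by positivity)
    rw [h2, one_pow]
    linarith
  · push Not at hc
    have hW : WZ (1 / y ^ 2) = 25 / 16 := by
      unfold WZ
      rw [if_neg (not_le.2 hc)]
    rw [hW]
    have hy2 : y ^ 2 < 2 / 5 := by
      rw [lt_div_iff₀ (by positivity)] at hc
      linarith
    have hy3 : y ≤ 64 / 100 := by
      by_contra hcon
      push Not at hcon
      nlinarith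
    set w : ℝ := 25 / 16 - (5 / y ^ 2 - 1 / y ^ 4) / 4 with hw
    have hw1 : w = (1 - 5 / 2 * y ^ 2) ^ 2 / (4 * y ^ 4) := by
      rw [hw]
      field_simp
      ring
    have hw0 : 0 ≤ w := by
      rw [hw1]
      positivity
    have hw2 : w ≤ 9 / 16 := by
      rw [hw1, div_le_iff₀ (by positivity)]
      nlinarith [sq_nonneg (y ^ 2), mul_nonneg (show 0 ≤ y - 1 / 2 by linarith) hy0.le]
    refine ⟨by linarith, ?_⟩
    -- the constant
    set c : ℝ := 1 - 3 * π ^ 2 / 32 with hcdef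
    have hc0 : 0 ≤ c := by
      have := pisq_hi
      rw [hcdef]
      linarith
    have hc1 : c ≤ 748 / 10000 := by
      have := pisq_lo
      rw [hcdef]
      linarith
    have hck : kap * c = kap - π / 4 := by
      rw [hcdef]
      unfold kap
      have := Real.pi_pos
      field_simp
      ring
    have hd0 : 0 ≤ c * w := mul_nonneg hc0 hw0
    have hd1 : c * w ≤ 748 / 10000 * w := mul_le_mul_of_nonneg_right hc1 hw0
    have hG1 : 1 + c * w ≤ GZ (1 / y ^ 2) := by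
      refine hG _ _ hz ?_
      rw [hW, hom]
      have h1 : taup * (1 + c * w - 25 / 16) ^ 2 ≤ 81 / 1000 * (1 + c * w - 25 / 16) ^ 2 :=
        mul_le_mul_of_nonneg_right ht1 (sq_nonneg _)
      have h2 : (c * w) ^ 2 ≤ 315 / 100000 * w := by
        have h3 : (c * w) ^ 2 ≤ (748 / 10000 * w) ^ 2 := pow_le_pow_left₀ hd0 hd1 2
        have h4 : w * w ≤ 9 / 16 * w := mul_le_mul_of_nonneg_right hw2 hw0
        have h5 : (748 / 10000 * w) ^ 2 = (748 / 10000) ^ 2 * (w * w) := by ring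
        rw [h5] at h3
        linarith
      have h3 : (1 + c * w) ^ 2 + 81 / 1000 * (1 + c * w - 25 / 16) ^ 2 ≤
          10257 / 10000 + 1462 / 10000 * w := by
        have h4 : (1 + c * w) ^ 2 + 81 / 1000 * (1 + c * w - 25 / 16) ^ 2 =
            1 + 81 / 1000 * (81 / 256) + (2 - 81 / 1000 * (9 / 8)) * (c * w) +
              1081 / 1000 * (c * w) ^ 2 := by ring
        rw [h4]
        linarith
      have h4 := polyB hy hy3
      have h5 : 10257 / 10000 + 1462 / 10000 * w ≤ (1 + y) ^ 2 / (4 * y) := by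
        have h6 : 10257 / 10000 + 1462 / 10000 * w =
            (10257 / 10000 * y ^ 4 + 1462 / 10000 * ((1 - 5 / 2 * y ^ 2) ^ 2 / 4)) / y ^ 4 := by
          rw [hw1]
          field_simp
        have h7 : (1 + y) ^ 2 / (4 * y) = ((y ^ 3 + 2 * y ^ 4 + y ^ 5) / 4) / y ^ 4 := by
          field_simp
          ring
        rw [h6, h7]
        exact div_le_div_of_nonneg_right h4 (by positivity)
      linarith
    have h8 : kap * (c * w) ≤ kap * (GZ (1 / y ^ 2) - 1) :=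
      mul_le_mul_of_nonneg_left (by linarith) hk.le
    have h9 : kap * (c * w) = (kap - π / 4) * w := by
      rw [← mul_assoc, hck]
    have h10 : w * (π / 4 - kap) = -((kap - π / 4) * w) := by ring
    rw [h10, ← h9]
    linarith

end Pool.Agent.Lib.MP_084b88_gt.LG
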