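import Pool.Agent.Lib.MP_084b88_gt.LG.Spec

/-!
# MP_084b88_gt, project LG: module SM2 (the power series of `1 - √(1-y)` without its linear term)
-/

set_option autoImplicit false

open MeasureTheory Set Real Filter Topology
open scoped Pointwise InnerProductSpace

namespace Pool.Agent.Lib.MP_084b88_gt.LG

open Pool.Agent.Lib.MP_084b88_gt.CW
open Pool.Agent.Lib.MP_084b88_gt.SY

namespace SM2M

/-- the polynomial `∑ c_k X^k` -/
noncomputable def pol (N : ℕ) (c : ℕ → ℝ) : Polynomial ℝ :=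
  ∑ k ∈ Finset.range N, Polynomial.C (c k) * Polynomial.X ^ k

theorem pol_coeff {N : ℕ} {c : ℕ → ℝ} (hc : ∀ k, 0 ≤ c k) (i : ℕ) : 0 ≤ (pol N c).coeff i := by
  unfold pol
  rw [Polynomial.finsetSum_coeff]
  refine Finset.sum_nonneg fun k _ => ?_
  rw [Polynomial.coeff_C_mul_X_pow]
  split_ifs
  · exact hc k
  · exact le_refl _

theorem sq_coeff {N : ℕ} {c : ℕ → ℝ} (hc : ∀ k, 0 ≤ c k) (i : ℕ) : 0 ≤ (pol N c ^ 2).coeff i := by
  rw [sq, Polynomial.coeff_mul]
  exact Finset.sum_nonneg fun x _ => mul_nonneg (pol_coeff hc _) (pol_coeff hc _)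

theorem pol_eval (N : ℕ) (c : ℕ → ℝ) (y : ℝ) :
    y * (pol N c).eval y = ∑ k ∈ Finset.range N, c k * y ^ (k + 1) := by
  unfold pol
  rw [Polynomial.eval_finsetSum, Finset.mul_sum]
  refine Finset.sum_congr rfl fun k _ => ?_
  rw [Polynomial.eval_mul, Polynomial.eval_C, Polynomial.eval_pow, Polynomial.eval_X]
  ring

/-- the new coefficients -/
noncomputable def cc (N : ℕ) (c : ℕ → ℝ) (m : ℕ) : ℝ := (pol N c ^ 2).coeff m / 2

theorem cc_sum (N : ℕ) (c : ℕ → ℝ) (y : ℝ) :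
    ∑ m ∈ Finset.range ((pol N c ^ 2).natDegree + 1), cc N c m * y ^ (m + 2) =
      (∑ k ∈ Finset.range N, c k * y ^ (k + 1)) ^ 2 / 2 := by
  rw [← pol_eval, mul_pow, ← Polynomial.eval_pow, Polynomial.eval_eq_sum_range, Finset.mul_sum, Finset.sum_div]
  refine Finset.sum_congr rfl fun k _ => ?_
  unfold cc
  ring

theorem int_close {f g : ℝ → ℝ} (hf : Continuous f) (hg : Continuous g) {ε : ℝ}
    (h : ∀ y ∈ Icc (0 : ℝ) 1, |g y - f y| ≤ ε) :
    |2 / π * (∫ x in (-1 : ℝ)..1, f (x ^ 2) * √(1 - x ^ 2)) -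
      2 / π * ∫ x in (-1 : ℝ)..1, g (x ^ 2) * √(1 - x ^ 2)| ≤ ε := by
  have hsq : ∫ x in (-1 : ℝ)..1, √(1 - x ^ 2) = π / 2 := integral_sqrt_one_sub_sq
  have hpi := Real.pi_pos
  rw [← mul_sub, ← intervalIntegral.integral_sub
      (Continuous.intervalIntegrable (by fun_prop) _ _)
      (Continuous.intervalIntegrable (by fun_prop) _ _), abs_mul,
      abs_of_pos (by positivity : 0 < 2 / π)]
  have h5 : |∫ x in (-1 : ℝ)..1, (f (x ^ 2) * √(1 - x ^ 2) -
      g (x ^ 2) * √(1 - x ^ 2))| ≤ ∫ x in (-1 : ℝ)..1, ε * √(1 - x ^ 2) := by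
    rw [← Real.norm_eq_abs]
    apply intervalIntegral.norm_integral_le_of_norm_le (by norm_num)
    · filter_upwards with x hx
      have h6 : x ^ 2 ∈ Icc (0 : ℝ) 1 := ⟨by positivity, by nlinarith [hx.1, hx.2]⟩
      have h7 := h _ h6
      rw [Real.norm_eq_abs, ← sub_mul, abs_mul, abs_of_nonneg (Real.sqrt_nonneg _),
        abs_sub_comm]
      exact mul_le_mul_of_nonneg_right h7 (Real.sqrt_nonneg _)
    · exact Continuous.intervalIntegrable (by fun_prop) _ _
  rw [intervalIntegral.integral_const_mul, hsq] at h5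
  calc 2 / π * |∫ x in (-1 : ℝ)..1, (f (x ^ 2) * √(1 - x ^ 2) -
      g (x ^ 2) * √(1 - x ^ 2))| ≤ 2 / π * (ε * (π / 2)) :=
        mul_le_mul_of_nonneg_left h5 (by positivity)
    _ = ε := by field_simp

theorem mu_one : mu 1 = 1 / 4 := by
  unfold mu ww
  norm_num

end SM2M

open SM2M in
/-- **SM2**. -/
theorem specSM2 (hSEM : SpecSEM) (hWAL : SpecWAL) : SpecSM2 := by
  intro ε hε
  obtain ⟨N, c, hc, h1, -⟩ := hSEM (min 1 (ε / 2)) (lt_min one_pos (by positivity))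
  have m1 : min 1 (ε / 2) ≤ 1 := min_le_left _ _
  have m2 : min 1 (ε / 2) ≤ ε / 2 := min_le_right _ _
  have m0 : 0 < min 1 (ε / 2) := lt_min one_pos (by positivity)
  obtain ⟨δ, hδ⟩ : ∃ δ : ℝ, δ = min 1 (ε / 2) := ⟨_, rfl⟩
  rw [← hδ] at h1 m1 m2 m0
  have key : ∀ y ∈ Icc (0 : ℝ) 1, |(1 - √(1 - y) - y / 2) -
      ∑ m ∈ Finset.range ((pol N c ^ 2).natDegree + 1), cc N c m * y ^ (m + 2)| ≤ ε := by
    intro y hy
    rw [cc_sum]
    have h2 := h1 y hy
    obtain ⟨p, hp⟩ : ∃ p : ℝ, p = ∑ k ∈ Finset.range N, c k * y ^ (k + 1) := ⟨_, rfl⟩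
    rw [← hp] at h2 ⊢
    have s1 : √(1 - y) ^ 2 = 1 - y := Real.sq_sqrt (by linarith [hy.2])
    have s2 : 0 ≤ √(1 - y) := Real.sqrt_nonneg _
    have s3 : √(1 - y) ≤ 1 := by
      rw [Real.sqrt_le_one]
      linarith [hy.1]
    obtain ⟨r, hr⟩ : ∃ r : ℝ, r = √(1 - y) := ⟨_, rfl⟩
    rw [← hr] at h2 s1 s2 s3 ⊢
    have e : 1 - r - y / 2 - p ^ 2 / 2 = (1 - r - p) * ((1 - r) + p) / 2 := by
      linear_combination (-1 / 2 : ℝ) * s1
    rw [e, abs_div, abs_mul, abs_of_pos (by norm_num : (0 : ℝ) < 2)]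
    have h3 : |1 - r + p| ≤ 3 := by
      have h4 := abs_le.1 h2
      rw [abs_le]
      constructor <;> linarith [h4.1, h4.2]
    have h5 : |1 - r - p| * |1 - r + p| ≤ δ * 3 := mul_le_mul h2 h3 (abs_nonneg _) m0.le
    linarith
  refine ⟨(pol N c ^ 2).natDegree + 1, cc N c, fun k => div_nonneg (sq_coeff hc k) (by norm_num), key, ?_⟩
  have e1 : ∑ m ∈ Finset.range ((pol N c ^ 2).natDegree + 1), cc N c m * mu (m + 2) =
      2 / π * ∫ x in (-1 : ℝ)..1, (∑ m ∈ Finset.range ((pol N c ^ 2).natDegree + 1),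
        cc N c m * (x ^ 2) ^ (m + 2)) * √(1 - x ^ 2) := by
    have h2 : ∀ x : ℝ, (∑ m ∈ Finset.range ((pol N c ^ 2).natDegree + 1),
        cc N c m * (x ^ 2) ^ (m + 2)) * √(1 - x ^ 2) =
        ∑ m ∈ Finset.range ((pol N c ^ 2).natDegree + 1),
          cc N c m * (x ^ (2 * (m + 2)) * √(1 - x ^ 2)) := by
      intro x
      rw [Finset.sum_mul]
      apply Finset.sum_congr rfl
      intro k _
      rw [← pow_mul]
      ring
    simp only [h2]
    rw [intervalIntegral.integral_finsetSum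
      (fun k _ => Continuous.intervalIntegrable (by fun_prop) _ _), Finset.mul_sum]
    apply Finset.sum_congr rfl
    intro k _
    rw [intervalIntegral.integral_const_mul, (hWAL (k + 2)).2]
    ring
  have hsq : ∫ x in (-1 : ℝ)..1, √(1 - x ^ 2) = π / 2 := integral_sqrt_one_sub_sq
  have hpi := Real.pi_pos
  have hx2 : ∫ x in (-1 : ℝ)..1, x ^ 2 * √(1 - x ^ 2) = π / 8 := by
    have h := (hWAL 1).2
    rw [mu_one, mul_one] at h
    field_simp at h
    linarith
  have e2 : 7 / 8 - kap = 2 / π * ∫ x in (-1 : ℝ)..1,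
      (1 - √(1 - x ^ 2) - x ^ 2 / 2) * √(1 - x ^ 2) := by
    have h3 : ∀ x ∈ Set.uIcc (-1 : ℝ) 1, (1 - √(1 - x ^ 2) - x ^ 2 / 2) * √(1 - x ^ 2) =
        √(1 - x ^ 2) - (1 - x ^ 2) - 1 / 2 * (x ^ 2 * √(1 - x ^ 2)) := by
      intro x hx
      rw [Set.uIcc_of_le (by norm_num)] at hx
      have h4 : √(1 - x ^ 2) * √(1 - x ^ 2) = 1 - x ^ 2 :=
        Real.mul_self_sqrt (by nlinarith [hx.1, hx.2])
      linear_combination -h4
    have h5 : ∫ x in (-1 : ℝ)..1, (1 - x ^ 2) = 4 / 3 := by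
      rw [intervalIntegral.integral_sub
        (Continuous.intervalIntegrable (by fun_prop) _ _)
        (Continuous.intervalIntegrable (by fun_prop) _ _), integral_pow]
      simp
      norm_num
    rw [intervalIntegral.integral_congr h3, intervalIntegral.integral_sub
      (Continuous.intervalIntegrable (by fun_prop) _ _)
      (Continuous.intervalIntegrable (by fun_prop) _ _), intervalIntegral.integral_sub
      (Continuous.intervalIntegrable (by fun_prop) _ _)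
      (Continuous.intervalIntegrable (by fun_prop) _ _), intervalIntegral.integral_const_mul,
      hsq, h5, hx2, kap]
    field_simp
    ring
  rw [e1, e2]
  exact int_close (f := fun y => ∑ m ∈ Finset.range ((pol N c ^ 2).natDegree + 1), cc N c m * y ^ (m + 2))
    (g := fun y => 1 - √(1 - y) - y / 2) (by fun_prop) (by fun_prop) key

end Pool.Agent.Lib.MP_084b88_gt.LG
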