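import Pool.Agent.Lib.MP_084b88_gt.LG.Spec
import Pool.Agent.Lib.MP_084b88_gt.SY.SYF

/-!
# MP_084b88_gt, project LG, module SYT: Q1 for centrally symmetric bodies
-/

set_option autoImplicit false

open MeasureTheory Set Real Filter Topology
open scoped Pointwise InnerProductSpace

namespace Pool.Agent.Lib.MP_084b88_gt.LG

open Pool.Agent.Lib.MP_084b88_gt.CW
open Pool.Agent.Lib.MP_084b88_gt.SY

namespace SYTM

/-- sets of area zero -/
theorem PIn_zero (P : Set (ℝ × ℝ)) (hP : CC P) (ha : area P = 0) (b : ℝ) : PIn P b = 0 := by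
  have hv : volume P = 0 := by
    have h1 : volume P ≠ ⊤ := hP.2.1.measure_lt_top.ne
    have h2 : (volume P).toReal = 0 := ha
    exact ((ENNReal.toReal_eq_zero_iff _).1 h2).resolve_right h1
  have hq : ∀ t, qf P t = 0 := by
    intro t
    unfold qf
    exact setIntegral_measure_zero _ hv
  unfold PIn
  simp [ha, hq]

end SYTM

open SYTM in
theorem specSYT (b0 : ℝ) (hb0 : 0 < b0) (hHAA : SpecHAA) (hMEA : SpecMEA) (hLEN : SpecLEN)
    (hCAU : SpecCAU) (hWB2 : SpecWB2) (hRE2P : SpecRE2P) (hPLN : SpecPLN b0) (hWGC : SpecWGC)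
    (hDIA : SpecDIA) : SpecSYT b0 := by
  intro K hK hKi hsym V1 V2 hst hwid c hc
  obtain ⟨o, ho⟩ := hsym
  have hV1 := SYFM.V1_pos hHAA hMEA hLEN hCAU K hK hKi V1 V2 hst
  obtain ⟨hCC, -, -, -, -, -, -, -, hrot⟩ := hMEA K hK hKi
  have hb : 0 < V1 / 4 := by positivity
  have hwR : ∀ R : O3, b0 * (V1 / 4) ≤ wid (pr R K) 0 / 2 := by
    intro R
    have h1 := hwid (col R 0) (norm_col R 0)
    rw [RE2M.wid_eq]
    linarith
  have hwt : ∀ (R : O3) (t : ℝ), b0 * (V1 / 4) ≤ wid (pr R K) t / 2 := by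
    intro R t
    rw [(hrot R t).1]
    exact hwR _
  obtain ⟨-, -, -, -, hGW, heq⟩ := hWGC
  refine hRE2P K hK hKi V1 V2 hst b0 hb0 hwR GY WY (hGW b0 hb0).1 (hGW b0 hb0).2 ?_ ?_ c hc
  · intro x hx
    exact le_of_eq (heq x (lt_of_lt_of_le hb0 hx))
  · intro R
    have hPC : CC (pr R K) := hCC R
    have hs : ∀ θ, sup2 (PNPM.TR (pr R K) (cd R o)) θ = sup2 (pr R K) θ - dotu θ (cd R o) :=
      fun θ => PNPM.sup2_TR hWB2 hPC (cd R o) θ
    have hw : ∀ θ, wid (PNPM.TR (pr R K) (cd R o)) θ = wid (pr R K) θ := by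
      intro θ
      unfold wid
      rw [hs, hs, PNPM.dotu_pi]
      ring
    have hsymP : ∀ p ∈ PNPM.TR (pr R K) (cd R o), -p ∈ PNPM.TR (pr R K) (cd R o) := by
      rintro _ ⟨p, ⟨x, hx, rfl⟩, rfl⟩
      refine ⟨cd R ((2 : ℝ) • o - x), ⟨_, ho x hx, rfl⟩, ?_⟩
      have e : cd R ((2 : ℝ) • o - x) = (2 : ℝ) • cd R o - cd R x := by
        rw [sub_eq_add_neg, cd_add, cd_smul]
        have : cd R (-x) = - cd R x := by
          have h2 := cd_smul R (-1 : ℝ) x
          simpa using h2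
        rw [this, sub_eq_add_neg]
      simp only
      rw [e, two_smul]
      abel
    have key : 0 ≤ PIn (PNPM.TR (pr R K) (cd R o)) (V1 / 4) := by
      have hTC := PNPM.cc_TR hPC (cd R o)
      have ha0 : 0 ≤ area (PNPM.TR (pr R K) (cd R o)) := ENNReal.toReal_nonneg
      rcases eq_or_lt_of_le ha0 with ha | ha
      · rw [PIn_zero _ hTC ha.symm]
      · refine hPLN _ hTC hsymP ha (V1 / 4) hb ?_ ?_
        · intro t
          rw [hw t]
          exact hwt R t
        · intro t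
          rw [hw t]
          exact hDIA K hK hKi V1 V2 hst R t
    refine key.trans (le_of_eq ?_)
    unfold PIn
    apply intervalIntegral.integral_congr
    intro t _
    simp only
    rw [hw t, SYFM.qf_TR hPC (cd R o) hs t, SYFM.area_TR]

end Pool.Agent.Lib.MP_084b88_gt.LG
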