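import Pool.Agent.Lib.MP_084b88_gt.LG.Spec

/-!
# MP_084b88_gt, project LG, module WGC: the universal weights
-/

set_option autoImplicit false

open MeasureTheory Set Real Filter Topology
open scoped Pointwise InnerProductSpace

namespace Pool.Agent.Lib.MP_084b88_gt.LG

open Pool.Agent.Lib.MP_084b88_gt.CW
open Pool.Agent.Lib.MP_084b88_gt.SY

namespace WGCM

theorem taup_eq : taup = 32 / (3 * π ^ 2) - 1 := by
  unfold taup kap
  field_simp
  ring

theorem taup_pos : 0 < taup := by
  rw [taup_eq, sub_pos, lt_div_iff₀ (by positivity)]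
  nlinarith [pi_lt_d2, pi_pos]

theorem taup_lt : taup < 1 / 10 := by
  rw [taup_eq, sub_lt_iff_lt_add, div_lt_iff₀ (by positivity)]
  nlinarith [pi_gt_d2, pi_pos]

theorem cont_WZ : Continuous WZ := by
  unfold WZ
  refine Continuous.if_le (by fun_prop) continuous_const continuous_id continuous_const ?_
  intro x hx
  have hx' : x = 5 / 2 := hx
  rw [hx']
  norm_num

theorem WZ_bd (z : ℝ) (hz : 0 ≤ z) : 0 ≤ WZ z ∧ WZ z ≤ 25 / 16 := by
  unfold WZ
  split_ifs with h
  · constructor
    · nlinarith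
    · nlinarith [sq_nonneg (z - 5 / 2)]
  · norm_num

theorem om_ge (z : ℝ) (hz : 0 < z) : 1 ≤ om z := by
  unfold om
  have h1 : 0 < √z := Real.sqrt_pos.2 hz
  have h2 : 2 ≤ √z + 1 / √z := by
    have e : √z + 1 / √z - 2 = (√z - 1) ^ 2 / √z := by
      field_simp
      ring
    have h3 : 0 ≤ (√z - 1) ^ 2 / √z := by positivity
    linarith
  linarith

/-- the discriminant -/
theorem disc (z : ℝ) (hz : 0 < z) : 0 ≤ (1 + taup) * om z - taup * WZ z ^ 2 := by
  obtain ⟨h1, h2⟩ := WZ_bd z hz.le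
  have h3 := om_ge z hz
  have h4 := taup_pos
  have h5 := taup_lt
  have h6 : WZ z ^ 2 ≤ (25 / 16) ^ 2 := pow_le_pow_left₀ h1 h2 2
  have h7 : taup * WZ z ^ 2 ≤ 1 / 10 * (25 / 16) ^ 2 :=
    mul_le_mul h5.le h6 (sq_nonneg _) (by norm_num)
  have h8 : 1 * 1 ≤ (1 + taup) * om z :=
    mul_le_mul (by linarith) h3 (by norm_num) (by linarith)
  norm_num at h7
  linarith

theorem quad (z : ℝ) (hz : 0 < z) : GZ z ^ 2 + taup * (GZ z - WZ z) ^ 2 = om z := by
  have h1 := Real.sq_sqrt (disc z hz)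
  have h2 : 1 + taup ≠ 0 := by
    have := taup_pos
    positivity
  have h3 : (1 + taup) * GZ z = taup * WZ z + √((1 + taup) * om z - taup * WZ z ^ 2) := by
    unfold GZ
    field_simp
  have h4 : √((1 + taup) * om z - taup * WZ z ^ 2) = (1 + taup) * GZ z - taup * WZ z := by
    linarith
  rw [h4] at h1
  have h5 : (1 + taup) * (GZ z ^ 2 + taup * (GZ z - WZ z) ^ 2 - om z) = 0 := by
    linear_combination h1
  have h6 := (mul_eq_zero.1 h5).resolve_left h2
  linarith

theorem root (z g : ℝ) (hg : g ^ 2 + taup * (g - WZ z) ^ 2 ≤ om z) : g ≤ GZ z := by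
  have h2 : 0 < 1 + taup := by
    have := taup_pos
    positivity
  have h3 : ((1 + taup) * g - taup * WZ z) ^ 2 ≤ (1 + taup) * om z - taup * WZ z ^ 2 := by
    have h4 := mul_le_mul_of_nonneg_left hg h2.le
    have e : ((1 + taup) * g - taup * WZ z) ^ 2 =
      (1 + taup) * (g ^ 2 + taup * (g - WZ z) ^ 2) - taup * WZ z ^ 2 := by ring
    rw [e]
    linarith
  have h5 : (1 + taup) * g - taup * WZ z ≤ √((1 + taup) * om z - taup * WZ z ^ 2) :=
    Real.le_sqrt_of_sq_le h3
  unfold GZ
  rw [le_div_iff₀ h2]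
  linarith

theorem cont_om : ContinuousOn om (Ioi 0) := by
  unfold om
  have h1 : ContinuousOn (fun z : ℝ => √z) (Ioi 0) := Real.continuous_sqrt.continuousOn
  have h2 : ContinuousOn (fun z : ℝ => 1 / √z) (Ioi 0) :=
    continuousOn_const.div h1 fun z hz => (Real.sqrt_pos.2 hz).ne'
  exact ((h1.add h2).add continuousOn_const).div_const 4

theorem cont_GZ : ContinuousOn GZ (Ioi 0) := by
  unfold GZ
  have h1 : ContinuousOn WZ (Ioi 0) := cont_WZ.continuousOn
  have h2 : ContinuousOn (fun z => (1 + taup) * om z - taup * WZ z ^ 2) (Ioi 0) :=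
    (continuousOn_const.mul cont_om).sub (continuousOn_const.mul (h1.pow 2))
  exact ((continuousOn_const.mul h1).add h2.sqrt).div_const _

theorem cont_inv (b0 : ℝ) (hb : 0 < b0) : ContinuousOn (fun y : ℝ => 1 / y ^ 2) (Ici b0) :=
  continuousOn_const.div (continuousOn_pow 2) fun y hy => by
    have : 0 < y := lt_of_lt_of_le hb hy
    positivity

theorem om_y (y : ℝ) (hy : 0 < y) : om (1 / y ^ 2) = (1 + y) ^ 2 / (4 * y) := by
  unfold om
  have h1 : √(1 / y ^ 2) = 1 / y := by
    rw [show 1 / y ^ 2 = (1 / y) ^ 2 by rw [div_pow, one_pow]]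
    exact Real.sqrt_sq (by positivity)
  rw [h1]
  field_simp
  ring

end WGCM

open WGCM in
theorem specWGC : SpecWGC := by
  refine ⟨cont_WZ.continuousOn, cont_GZ, quad, fun z g _ hg => root z g hg, ?_, ?_⟩
  · intro b0 hb
    constructor
    · refine cont_GZ.comp (cont_inv b0 hb) ?_
      intro y hy
      have : 0 < y := lt_of_lt_of_le hb hy
      show 0 < 1 / y ^ 2
      positivity
    · exact cont_WZ.comp_continuousOn (cont_inv b0 hb)
  · intro y hy
    have h := quad (1 / y ^ 2) (by positivity)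
    rw [om_y y hy] at h
    exact h

end Pool.Agent.Lib.MP_084b88_gt.LG
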