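import Pool.Agent.Lib.MP_084b88_gt.LG.Defs
import Pool.Agent.Lib.MP_084b88_gt.PC.Spec

/-!
# MP_084b88_gt, project LG: Q1 for centrally symmetric bodies with `min B ≥ b0 · E B`, `b0` small

`B(u)` half width, mean value `1`. Universal weights `W`, `G` of `Defs` (functions of `z = 1/B²`), CW `RE2P` reduces Q1
to the planar inequality `0 ≤ PIn P b` for all projections `P` (symmetric, `b0 b ≤ h ≤ 2b`, `h = wid/2`, `b = V1/4`).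
`β ≤ α` the half axes (units `b`) of the Legendre ellipse of `P` (support function `e`, `∫_P <p,u>² = area e²/3`,
`e ≤ h ≤ √2 e`).
* `β ≥ 1/2`: all `h ≥ b/2`, module REG (only the old weighted inequality SQF, weight `(5z - z²)/4`).
* `β < 1/2`: module CERT, a finite computation with the data `Lg` of the body in Legendre position.

Rules: file `LG/XXX.lean`, `import Pool.Agent.Lib.MP_084b88_gt.LG.Spec`, namespace
`Pool.Agent.Lib.MP_084b88_gt.LG`, `theorem specXXX (hYYY : SpecYYY) .. : SpecXXX` (any Spec of this file, of `SY/Spec`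
or of `CW/SpecA .. SpecM` may be a hypothesis; all Specs of SY and CW are proved, `allXXX`), own lemmas in the
namespace `..LG.XXXM`.
-/

set_option autoImplicit false

open MeasureTheory Set Real Filter Topology
open scoped Pointwise InnerProductSpace

namespace Pool.Agent.Lib.MP_084b88_gt.LG

open Pool.Agent.Lib.MP_084b88_gt.CW
open Pool.Agent.Lib.MP_084b88_gt.SY

/-! ## I. The body in Legendre position -/

/-- **SM2** (120 lines, from SY SEM, WAL). `1 - √(1-y) - y/2 = u²/2` for `u = 1 - √(1-y)` (`u = (y+u²)/2`); take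
`p(y) = ∑ c_k y^{k+1}` of SEM for `ε' ≤ 1`: `|u²/2 - p²/2| ≤ ε' (2 + ε')/2`, and `p²/2 = ∑_m c'_m y^{m+2}`,
`c'_m = (1/2)∑_{i+j=m} c_i c_j ≥ 0`. Second claim: by WAL `∑ c'_m μ_{m+2} = (2/π) ∫_{-1}^1 (p(x²)²/2) √(1-x²) dx`, which differs
from `(2/π) ∫ (1 - √(1-x²) - x²/2) √(1-x²) dx = 1 - κ - 1/8` by at most `ε'(2+ε')/2` (`(2/π)∫ √(1-x²) = 1`,
`(2/π) ∫ x² √(1-x²) = μ_1 = 1/4`, `∫ (1-x²) = 4/3`). -/
def SpecSM2 : Prop :=
  ∀ ε : ℝ, 0 < ε → ∃ (N : ℕ) (c : ℕ → ℝ), (∀ k, 0 ≤ c k) ∧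
    (∀ y ∈ Icc (0 : ℝ) 1,
      |(1 - √(1 - y) - y / 2) - ∑ k ∈ Finset.range N, c k * y ^ (k + 2)| ≤ ε) ∧
    |(∑ k ∈ Finset.range N, c k * mu (k + 2)) - (7 / 8 - kap)| ≤ ε

/-- **CNT** (60 lines, from WB2). Continuity and periodicity. `sup2`, `wid`, `mid` are continuous; for every `p ∈ Q` the
integrand of `qf` is continuous in `t` and bounded by `1`, `Q` has finite measure
(`MeasureTheory.continuous_of_dominated`). `mid Q (t+π) = -mid Q t` (`sup2 Q (θ + 2π) = sup2 Q θ`),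
`dotu (t+π) p = -dotu t p`. -/
def SpecCNT : Prop :=
  ∀ Q : Set (ℝ × ℝ), CC Q → (∀ θ, 0 < wid Q θ) →
    Continuous (fun t => qf Q t) ∧ (∀ t, qf Q (t + π) = qf Q t) ∧
    (∀ t, 0 ≤ qf Q t ∧ qf Q t ≤ area Q)

/-- **CW2** (200 lines, from CQL, SM2, GDU, WB2; copy of SQF). The weighted inequality with separate weights.
`h = sup2 P = wid/2` (symmetry), `h² ≥ 1` (`xf P ≤ 1`: BND), CQL applies with `A = r1`, `B = 0`, `C = r2`, `c0 = 1`: the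
form `r1 cos² + r2 sin²` is `≤ 4/5 ≤ (4/5) h²`; weight `wt = x (1 - (r1 cos² + r2 sin²) x)`, `x = xf P`.
(1) `k = 1`: GDU with `G = τ² - μ_1`, `μ_1 = 1/4`, `∫_P (dotu t p)² dp = area/3` for all `t` (Iso):
`IG (x² - 1/4) h t = area (x/3 - 1/4) = -2 area Sf x`; so `∫ wt Sf(x) ≥ 0`.
(2) `k ≥ 2`: with `σ = dotu t p/h ∈ [-1,1]`: `area Rf = ∫_P (√(1-σ²) - 1 + σ²/2) + (7/8 - κ) area`
(`∫_P σ² = area x/3`), which by SM2 is `≥ -∑ c_k ∫_P (σ^{2k+4} - μ_{k+2}) - 2ε area`; multiply by `wt ≥ 0`, integrate, CQL for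
`k + 2`, and `ε → 0`. -/
def SpecCW2 : Prop :=
  ∀ P : Set (ℝ × ℝ), Iso P → ∀ r1 r2 : ℝ, 0 ≤ r1 → r1 ≤ 4 / 5 → 0 ≤ r2 → r2 ≤ 4 / 5 →
    (0 ≤ ∫ s in (0 : ℝ)..(2 * π),
      xf P s * (1 - (r1 * cos s ^ 2 + r2 * sin s ^ 2) * xf P s) * Sf (xf P s)) ∧
    (0 ≤ ∫ s in (0 : ℝ)..(2 * π),
      xf P s * (1 - (r1 * cos s ^ 2 + r2 * sin s ^ 2) * xf P s) * Rf P s)

/-- **BND** (60 lines, from PC PCB). The Legendre band. `area Rf = qf - (κ + 1/8 - x/6) area`; divide the inequalities of PCB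
by `area > 0`: `R ≤ p - κ - 1/8 + (1/6 - q/3) x`; `8/(3π) ≥ .848826` (`Real.pi_lt_d6` etc.). -/
def SpecBND : Prop :=
  ∀ P : Set (ℝ × ℝ), Iso P → ∀ s, 1 / 2 ≤ xf P s ∧ xf P s ≤ 1 ∧
    (3 * π / 4 - 4 / 3 - kap - 1 / 8) - (π / 2 - 3 / 2) * xf P s ≤ Rf P s ∧
    ∀ l ∈ bandQ, Rf P s ≤ (l.1 : ℝ) * xf P s + (l.2 : ℝ)

/-- **PCC** (40 lines, from PC PCB, CUT). Pair coupling in conjugate directions. -/
def SpecPCC : Prop :=
  ∀ P : Set (ℝ × ℝ), Iso P → ∀ l ∈ pairQ, ∀ s, (l.1 : ℝ) * xf P s + (l.2 : ℝ) ≤ xf P (s + π / 2)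

/-- **LGQ** (60 lines, from CNT, CW2, BND, PCC, WB2). -/
def SpecLGQ : Prop :=
  ∀ P : Set (ℝ × ℝ), Iso P → Lg (xf P) (Rf P)

/-! ## II. The affine image -/

/-- **AFQ** (150 lines, from WB2). Affine images (no symmetry). `dotu (t0+θ) (lm t0 a b q) = a q₁ cos θ + b q₂ sin θ
= e dotu s q`. Change of variables for the linear map `lm`, determinant `ab` (e.g.
`MeasureTheory.integral_image_eq_integral_abs_det_fderiv_smul`, or `map_linearMap_addHaar`). -/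
def SpecAFQ : Prop :=
  ∀ (P : Set (ℝ × ℝ)) (t0 a b : ℝ), CC P → 0 < a → 0 < b →
    CC (lm t0 a b '' P) ∧ area (lm t0 a b '' P) = a * b * area P ∧
    (∀ f : ℝ × ℝ → ℝ, ∫ p in lm t0 a b '' P, f p = a * b * ∫ q in P, f (lm t0 a b q)) ∧
    ∀ s θ e : ℝ, 0 < e → a * cos θ = e * cos s → b * sin θ = e * sin s →
      sup2 (lm t0 a b '' P) (t0 + θ) = e * sup2 P s ∧
      wid (lm t0 a b '' P) (t0 + θ) = e * wid P s ∧
      mid (lm t0 a b '' P) (t0 + θ) = e * mid P s ∧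
      (0 < wid P s → qf (lm t0 a b '' P) (t0 + θ) = a * b * qf P s ∧
        mf (lm t0 a b '' P) (t0 + θ) = a * b * mf P s)

/-- **LEL** (150 lines, from AFQ, WB2). The Legendre ellipse. `m_ij = (3/area) ∫_P p_i p_j`,
`M(θ) = m11 cos² + 2 m12 cos sin + m22 sin² = (3/area) ∫_P (dotu θ p)² > 0` (a line has measure `0`).
`((m11-m22)/2, m12) = ρ (cos 2t0, sin 2t0)`, `ρ ≥ 0` (polar coordinates): `M(θ) = (m11+m22)/2 + ρ cos(2θ - 2t0)`,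
`a² = M(t0)`, `b² = M(t0+π/2)`, `∫_P dotu t0 p · dotu (t0+π/2) p = 0`. `P' = lm⁻¹ P`, i.e.
`P' = {(dotu t0 p/a, dotu (t0+π/2) p/b) | p ∈ P}`. Positivity of the widths and of the area of `P'`. -/
def SpecLEL : Prop :=
  ∀ P : Set (ℝ × ℝ), CC P → (∀ θ, 0 < wid P θ) → 0 < area P →
    ∃ (t0 a b : ℝ) (P' : Set (ℝ × ℝ)), 0 < b ∧ b ≤ a ∧ P = lm t0 a b '' P' ∧ CC P' ∧
      (∀ θ, 0 < wid P' θ) ∧ 0 < area P' ∧ ((∀ p ∈ P, -p ∈ P) → ∀ p ∈ P', -p ∈ P') ∧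
      ∫ p in P', p.1 ^ 2 = area P' / 3 ∧ ∫ p in P', p.2 ^ 2 = area P' / 3 ∧
      ∫ p in P', p.1 * p.2 = 0

/-- **ACV** (100 lines). The change of variables. With `a = √A`, `b = √B`, `D = a cos² + b sin² > 0`,
`N = (b-a) sin cos`: `D² + N² = n`, `θ(s) = s + arctan(N/D)`, `cos arctan(N/D) = D/√n`, `sin arctan(N/D) = N/√n`;
`θ' = 1 + (N'D - ND')/n = ab/n` as `N'D - ND' = (b-a)(a cos² - b sin²)`. `θ(s+2π) = θ(s) + 2π`; substitution and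
periodicity. -/
def SpecACV : Prop :=
  ∀ A B : ℝ, 0 < A → 0 < B →
    (∀ s, 0 < nn A B s ∧ cos (thf A B s) = √A * cos s / √(nn A B s) ∧
      sin (thf A B s) = √B * sin s / √(nn A B s)) ∧
    ∀ F : ℝ → ℝ, Continuous F → (∀ t, F (t + 2 * π) = F t) → ∀ t0 : ℝ,
      ∫ t in (0 : ℝ)..(2 * π), F t =
        ∫ s in (0 : ℝ)..(2 * π), F (t0 + thf A B s) * (√A * √B / nn A B s)

/-! ## III. The universal weights -/

/-- **WGC** (80 lines). `0 < taup < 1/10`; `om z ≥ 1` for `z > 0` (arithmetic-geometric mean), `|WZ z| ≤ 25/16` for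
`0 ≤ z`, so `(1+τ) ω² - τ W² ≥ 0` and `GZ z` satisfies the quadratic equation; continuity (`WZ` is continuous at
`5/2`). -/
def SpecWGC : Prop :=
  ContinuousOn WZ (Ici 0) ∧ ContinuousOn GZ (Ioi 0) ∧
  (∀ z, 0 < z → GZ z ^ 2 + taup * (GZ z - WZ z) ^ 2 = om z) ∧
  (∀ z g, 0 < z → g ^ 2 + taup * (g - WZ z) ^ 2 ≤ om z → g ≤ GZ z) ∧
  (∀ b0, 0 < b0 → ContinuousOn GY (Ici b0) ∧ ContinuousOn WY (Ici b0)) ∧
  (∀ y, 0 < y → GY y ^ 2 + taup * (GY y - WY y) ^ 2 = (1 + y) ^ 2 / (4 * y))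

/-- **RG1** (120 lines, from WGC). Pointwise inequality for `y ≥ 1/2`. `z = 1/y²`, `ψ = (5z - z²)/4`.
`y² ≥ 2/5`: `W = ψ`, `G ≥ 1` because `1 + τ(1-ψ)² ≤ ω²`, i.e. `τ (1+y)² (4y²-1)² ≤ 4 y⁷` (quotient at most `0.78`).
`1/4 ≤ y² ≤ 2/5`: `W = 25/16`, `G ≥ 1 + δ`, `δ = (κ - π/4)(W - ψ)/κ`, because `(1+δ)² + τ (1+δ-W)² ≤ ω²`
(margin: `κ(G-1) - κδ ≥ .007`). -/
def SpecRG1 : Prop :=
  ∀ y : ℝ, 1 / 2 ≤ y → (5 / y ^ 2 - 1 / y ^ 4) / 4 ≤ WY y ∧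
    0 ≤ kap * (GY y - 1) + (WY y - (5 / y ^ 2 - 1 / y ^ 4) / 4) * (π / 4 - kap)

/-- **REG** (100 lines, from RG1, SY SQF, LEL, AFQ, BND, CNT, WGC). Regime I. SQF for `Q = P`, `c0 = (5/4) b²`,
form `b⁴/4 · I` (`Adm`: `b⁴/4 ≤ (4/5)(5/4) b² h²` iff `h ≥ b/2`): `∫ ψ(h/b) (qf - κ area) ≥ 0` (up to the factor `b²`).
`qf ≥ (π/4) area`: BND for the Legendre position (`lo` with `x ≤ 1`: `κ + S + R ≥ 3π/4 - 4/3 - (π/2 - 4/3) x ≥ π/4`) and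
AFQ (LEL; every direction `t = t0 + θ` has an `s`). Add RG1. -/
def SpecREG : Prop :=
  ∀ P : Set (ℝ × ℝ), CC P → (∀ p ∈ P, -p ∈ P) → 0 < area P → ∀ b : ℝ, 0 < b →
    (∀ t, b / 2 ≤ wid P t / 2) → 0 ≤ PIn P b

/-! ## IV. The certificate and the final statements -/

/-- **CERT** (helper30, helper2). The planar inequality in regime II (`B > 4`, i.e. `β < 1/2`) for abstract data. -/
def SpecCERT (b0 : ℝ) : Prop :=
  ∀ x R : ℝ → ℝ, Lg x R → ∀ A B : ℝ, 1 / 4 ≤ A → A ≤ B → 4 < B → B ≤ 2 / b0 ^ 2 →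
    (∀ s, 1 / 4 ≤ nn A B s * x s ∧ nn A B s * x s ≤ 1 / b0 ^ 2) →
    0 ≤ ∫ s in (0 : ℝ)..(2 * π), Jn (nn A B s) (x s) (R s)

/-- **PLN** (150 lines, from LEL, AFQ, ACV, LGQ, WGC, CNT, CERT, REG). The planar theorem.
LEL: `P = lm t0 a b' '' P'`; `A = (b/a)²`, `B = (b/b')²`. `B ≤ 4`: for every `t` there are `s, e` as in AFQ with
`e ≥ b' ≥ b/2` and `wid P t/2 = e wid P' s/2 ≥ e` (`x ≤ 1`); REG. `B > 4`: `wid P t0/2 = a wid P' 0/2 ≥ a` gives `a ≤ 2b`,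
`wid P (t0+π/2)/2 = b' wid P' (π/2)/2 ≤ √2 b'` gives `B ≤ 2/b0²`. At `t = t0 + thf A B s`, `e = b/√n`:
`(wid P t/2/b)² = 1/(n x)`, `qf P t/area P = qf P' s/area P' = κ + S + R`; so by ACV
`PIn P b = area P √A √B ∫ Jn (nn A B s) (x s) (R s) ds`, and CERT. -/
def SpecPLN (b0 : ℝ) : Prop :=
  ∀ P : Set (ℝ × ℝ), CC P → (∀ p ∈ P, -p ∈ P) → 0 < area P → ∀ b : ℝ, 0 < b →
    (∀ t, b0 * b ≤ wid P t / 2) → (∀ t, wid P t / 2 ≤ 2 * b) → 0 ≤ PIn P b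

/-- **DIA** (80 lines, from CW AVH, HSB, HAA, MEA, LEN, CAU). `B(u) ≤ 2 E B`. Let `x, y ∈ K` with `<u, x-y> = 2B(u)`,
`u = col (R * rot t) 0`; for every frame `S` `wid (pr S K) 0 = HS K (col S 0) + HS K (-col S 0) ≥ |<col S 0, x-y>|`, whose
mean is `‖x-y‖/2 ≥ B(u)` (AVH; `col S 0` instead of `col S 2`: right multiplication by `cyc`). `E wid = V1/2`
(LEN, CAU). -/
def SpecDIA : Prop :=
  ∀ K : Set E3, CC K → (interior K).Nonempty → ∀ V1 V2 : ℝ, STEI K V1 V2 →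
    ∀ (R : O3) (t : ℝ), wid (pr R K) t / 2 ≤ 2 * (V1 / 4)

/-- **SYT** (100 lines, from CW RE2P, PLN, WGC, DIA, HAA, MEA, LEN, CAU, WB2; copy of SYF). Q1 for every
centrally symmetric body with minimal width `≥ b0 ·` mean width. -/
def SpecSYT (b0 : ℝ) : Prop :=
  ∀ K : Set E3, CC K → (interior K).Nonempty → (∃ o : E3, ∀ x ∈ K, (2 : ℝ) • o - x ∈ K) →
    ∀ V1 V2 : ℝ, STEI K V1 V2 →
    (∀ u : E3, ‖u‖ = 1 → b0 * (V1 / 2) ≤ HS K u + HS K (-u)) →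
    ∀ c : ℝ, HSEC K c → 4 * c * V2 ^ 2 ≤ 3 * Real.pi * V1 * (volume K).toReal

end Pool.Agent.Lib.MP_084b88_gt.LG
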