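import Pool.Agent.Lib.MP_084b88_gt.CT.OML
import Pool.Agent.Lib.MP_084b88_gt.LG.WGC
import Pool.Agent.Lib.MP_084b88_gt.CT.KGL
import Pool.Agent.Lib.MP_084b88_gt.CT.TRG
import Pool.Agent.Lib.MP_084b88_gt.CT.SCT

section
/-!
# MP_084b88_gt, project LG, module CERT: the certificate
-/
set_option autoImplicit false

open MeasureTheory Set Real

namespace Pool.Agent.Lib.MP_084b88_gt.LG

open Pool.Agent.Lib.MP_084b88_gt.CW
open Pool.Agent.Lib.MP_084b88_gt.SY

/-- **CERT** from the modules of the project CT. -/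
theorem specCERT (hWGC : SpecWGC) (hKGL : CT.SpecKGL) (hOML : CT.SpecOML) (hTRG : CT.SpecTRG)
    (hBLN : CT.SpecBLN) (hSCT : CT.SpecSCT) : SpecCERT (7 / 100) := by
  have hCEL : CT.SpecCEL := CT.specCEL hWGC hSCT hKGL hOML hTRG hBLN
  have hFIN : CT.SpecFIN := CT.specFIN hWGC hCEL hBLN
  intro x R hL A B hA hAB h4 hB hz
  have key := CT.cover (G := fun A B => (∀ s, 1 / 4 ≤ nn A B s * x s ∧ nn A B s * x s < 205) →
    0 < A → 0 < B → 0 ≤ ∫ s in (0 : ℝ)..(2 * π), Jn (nn A B s) (x s) (R s))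
    (fun c hc A B hin hz hA hB => hFIN c hc x R hL A B hin hA hB hz) A B hA hAB h4.le
    (by norm_num at hB; linarith)
  apply key
  · intro s
    refine ⟨(hz s).1, lt_of_le_of_lt (hz s).2 (by norm_num)⟩
  · linarith
  · linarith

end Pool.Agent.Lib.MP_084b88_gt.LG
end

section
/-!
# MP_084b88_gt, project LG: the certificate CERT, without hypotheses
-/
set_option autoImplicit false

namespace Pool.Agent.Lib.MP_084b88_gt.LG

/-- **CERT**, proved. -/
theorem allCERT : SpecCERT (7 / 100) :=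
  specCERT specWGC (CT.specKGL specWGC) CT.specOML CT.specTRG CT.specBLN
    (CT.specSCT (CT.specPCS CT.specBRN CT.specSCN))

end Pool.Agent.Lib.MP_084b88_gt.LG
end
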