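import Pool.Agent.Lib.MP_084b88_gt.SY.Spec
import Pool.Agent.Lib.MP_084b88_gt.CW.SpecM

/-!
# MP_084b88_gt (Chakerian), project LG (symmetric bodies, the Legendre scheme): definitions

A symmetric planar body `P` is brought into Legendre position `P'`: `P = lm t0 a b '' P'`, `b ≤ a`,
`∫_{P'} p pᵀ dp = (area P'/3) · I`. `x(s) = 1/h'(s)² ∈ [1/2,1]`, `h'` the support function of `P'`;
`qf P' s/area P' = κ + S(x(s)) + R(s)`, `S` the contribution of the power `2`, `R` that of the powers `≥ 4`.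
-/

set_option autoImplicit false

open MeasureTheory Set Real
open scoped Pointwise InnerProductSpace

namespace Pool.Agent.Lib.MP_084b88_gt.LG

open Pool.Agent.Lib.MP_084b88_gt.CW
open Pool.Agent.Lib.MP_084b88_gt.SY

/-! ### Legendre position -/

/-- The linear map `rotation(t0) ∘ diag(a, b)`. -/
noncomputable def lm (t0 a b : ℝ) (q : ℝ × ℝ) : ℝ × ℝ :=
  (a * q.1 * cos t0 - b * q.2 * sin t0, a * q.1 * sin t0 + b * q.2 * cos t0)

/-- Centrally symmetric (about the origin) planar body in Legendre position. -/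
structure Iso (P : Set (ℝ × ℝ)) : Prop where
  cc : CC P
  sym : ∀ p ∈ P, -p ∈ P
  wpos : ∀ θ, 0 < wid P θ
  apos : 0 < area P
  m11 : ∫ p in P, p.1 ^ 2 = area P / 3
  m22 : ∫ p in P, p.2 ^ 2 = area P / 3
  m12 : ∫ p in P, p.1 * p.2 = 0

/-- `x(s) = 1/h(s)²`. -/
noncomputable def xf (P : Set (ℝ × ℝ)) (s : ℝ) : ℝ := 1 / (wid P s / 2) ^ 2

/-- `S(x) = 1/8 - x/6`. -/
noncomputable def Sf (x : ℝ) : ℝ := 1 / 8 - x / 6

/-- `R(s) = qf/area - κ - S(x(s))`. -/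
noncomputable def Rf (P : Set (ℝ × ℝ)) (s : ℝ) : ℝ := qf P s / area P - kap - Sf (xf P s)

/-! ### Data of the planar scheme -/

/-- Lines `(m, k)` above the upper boundary of the Legendre band: `R ≤ m x + k` (from `PC/Spec` PCB: `m = 1/6 - q/3`,
`k ≥ p - κ - 1/8`, `κ = .8488263631..`). -/
def bandQ : List (ℚ × ℚ) :=
  [(-857 / 30000, 28074 / 1000000), (-1185 / 30000, 34474 / 1000000),
   (-1786 / 30000, 48274 / 1000000), (-2763 / 30000, 74974 / 1000000),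
   (-4306 / 30000, 122774 / 1000000)]

/-- Lines `(m, k)` of the pair coupling: `x(s+π/2) ≥ m x(s) + k` (from `PC/Spec` PCB, CUT). -/
def pairQ : List (ℚ × ℚ) :=
  [(4, -3), (313 / 100, -21433 / 10000), (28 / 10, -18265 / 10000), (223 / 100, -12912 / 10000),
   (197 / 100, -10539 / 10000), (151 / 100, -6459 / 10000), (136 / 100, -5165 / 10000),
   (87 / 100, -1162 / 10000), (72 / 100, 3 / 10000)]

/-- What is known on the pair of functions `x = xf P`, `R = Rf P`. -/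
structure Lg (x R : ℝ → ℝ) : Prop where
  cx : Continuous x
  cR : Continuous R
  px : ∀ s, x (s + π) = x s
  pR : ∀ s, R (s + π) = R s
  x1 : ∀ s, 1 / 2 ≤ x s
  x2 : ∀ s, x s ≤ 1
  lo : ∀ s, (3 * π / 4 - 4 / 3 - kap - 1 / 8) - (π / 2 - 3 / 2) * x s ≤ R s
  hi : ∀ l ∈ bandQ, ∀ s, R s ≤ (l.1 : ℝ) * x s + (l.2 : ℝ)
  pair : ∀ l ∈ pairQ, ∀ s, (l.1 : ℝ) * x s + (l.2 : ℝ) ≤ x (s + π / 2)
  twoS : ∀ r1 r2 : ℝ, 0 ≤ r1 → r1 ≤ 4 / 5 → 0 ≤ r2 → r2 ≤ 4 / 5 →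
    0 ≤ ∫ s in (0 : ℝ)..(2 * π), x s * (1 - (r1 * cos s ^ 2 + r2 * sin s ^ 2) * x s) * Sf (x s)
  twoR : ∀ r1 r2 : ℝ, 0 ≤ r1 → r1 ≤ 4 / 5 → 0 ≤ r2 → r2 ≤ 4 / 5 →
    0 ≤ ∫ s in (0 : ℝ)..(2 * π), x s * (1 - (r1 * cos s ^ 2 + r2 * sin s ^ 2) * x s) * R s

/-! ### The universal weights, as functions of `z = 1/h²` and of `y = h` -/

/-- `ω² = (1+h)²/(4h)`, `h = 1/√z`. -/
noncomputable def om (z : ℝ) : ℝ := (√z + 1 / √z + 2) / 4

/-- `W(z) = (5z - z²)/4` for `z ≤ 5/2`, `25/16` for `z ≥ 5/2`. -/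
noncomputable def WZ (z : ℝ) : ℝ := if z ≤ 5 / 2 then (5 * z - z ^ 2) / 4 else 25 / 16

/-- The larger root of `G² + τ (G - W)² = ω²`. -/
noncomputable def GZ (z : ℝ) : ℝ :=
  (taup * WZ z + √((1 + taup) * om z - taup * WZ z ^ 2)) / (1 + taup)

/-- `W` as a function of `h`. -/
noncomputable def WY (y : ℝ) : ℝ := WZ (1 / y ^ 2)
/-- `G` as a function of `h`. -/
noncomputable def GY (y : ℝ) : ℝ := GZ (1 / y ^ 2)

/-- `n(s) = A cos² s + B sin² s`. -/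
noncomputable def nn (A B s : ℝ) : ℝ := A * cos s ^ 2 + B * sin s ^ 2

/-- The integrand of the planar inequality in the Legendre parameter `s`, `v = x(s)`, `R = R(s)`. -/
noncomputable def Jn (n v R : ℝ) : ℝ :=
  1 / n * (kap * (GZ (n * v) - 1) + WZ (n * v) * (Sf v + R))

/-- The angle `θ` with `cos θ = √A cos s/√n`, `sin θ = √B sin s/√n`. -/
noncomputable def thf (A B s : ℝ) : ℝ :=
  s + arctan ((√B - √A) * (sin s * cos s) / (√A * cos s ^ 2 + √B * sin s ^ 2))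

/-- The planar inequality for `P` at the scale `b`. -/
noncomputable def PIn (P : Set (ℝ × ℝ)) (b : ℝ) : ℝ :=
  ∫ t in (0 : ℝ)..(2 * π), (kap * (GY (wid P t / 2 / b) - 1) * area P +
    WY (wid P t / 2 / b) * (qf P t - kap * area P))

end Pool.Agent.Lib.MP_084b88_gt.LG
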