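import Pool.Agent.Lib.MP_084b88_gt.LG.Spec

/-!
# MP_084b88_gt, project LG: module LGQ (helper45)
-/

set_option autoImplicit false

open MeasureTheory Set Real Filter Topology
open scoped Pointwise InnerProductSpace

namespace Pool.Agent.Lib.MP_084b88_gt.LG

open Pool.Agent.Lib.MP_084b88_gt.CW
open Pool.Agent.Lib.MP_084b88_gt.SY

/-- **LGQ**. -/
theorem specLGQ (hCNT : SpecCNT) (hCW2 : SpecCW2) (hBND : SpecBND) (hPCC : SpecPCC)
    (hWB2 : SpecWB2) : SpecLGQ := by
  intro P hP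
  obtain ⟨-, -, -, -, -, -, -, -, -, w10, w11⟩ := hWB2
  obtain ⟨-, hcw⟩ := w10 P hP.cc
  obtain ⟨hcq, hpq, -⟩ := hCNT P hP.cc hP.wpos
  have hcx : Continuous (xf P) := by
    unfold xf
    refine continuous_const.div ((hcw.div_const 2).pow 2) fun s => ?_
    have := hP.wpos s
    positivity
  have hpx : ∀ s, xf P (s + π) = xf P s := by
    intro s
    unfold xf
    rw [w11 P s]
  refine ⟨hcx, ?_, hpx, ?_, fun s => (hBND P hP s).1, fun s => (hBND P hP s).2.1,
    fun s => (hBND P hP s).2.2.1, fun l hl s => (hBND P hP s).2.2.2 l hl,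
    fun l hl s => hPCC P hP l hl s, fun r1 r2 h1 h2 h3 h4 => (hCW2 P hP r1 r2 h1 h2 h3 h4).1,
    fun r1 r2 h1 h2 h3 h4 => (hCW2 P hP r1 r2 h1 h2 h3 h4).2⟩
  · have h : Continuous (fun s => qf P s / area P - kap - (1 / 8 - xf P s / 6)) :=
      ((hcq.div_const _).sub continuous_const).sub (continuous_const.sub (hcx.div_const _))
    exact h
  · intro s
    unfold Rf
    rw [hpq s, hpx s]

end Pool.Agent.Lib.MP_084b88_gt.LG
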